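import Mathlib

set_option autoImplicit false

universe u

namespace Pool.Agent.Work.MP_279ba3_co

open Cardinal Set

variable {V : Type u}

/-- `Wit G m A B P` : the map `P` (choosing for every `x ∈ B \ A` the set of its earlier
neighbours in `B \ A`) witnesses that `B \ A` can be well-ordered over `A` with every
`x ∈ B \ A` having fewer than `m` neighbours in `A` or before it. -/
structure Wit (G : SimpleGraph V) (m : ℕ) (A B : Set V) (P : V → Set V) : Prop where
  sub : ∀ x ∈ B \ A, P x ⊆ B \ A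
  wf : WellFounded (fun y x => x ∈ B \ A ∧ y ∈ P x)
  adj : ∀ x ∈ B \ A, ∀ y ∈ B \ A, G.Adj x y → y ∈ P x ∨ x ∈ P y
  deg : ∀ x ∈ B \ A, ({y | G.Adj x y ∧ y ∈ A} ∪ P x).encard < m

/-- relative goodness -/
def Good (G : SimpleGraph V) (m : ℕ) (A B : Set V) : Prop := ∃ P, Wit G m A B P

theorem Wit.finite {G : SimpleGraph V} {m : ℕ} {A B : Set V} {P : V → Set V}
    (h : Wit G m A B P) {x : V} (hx : x ∈ B \ A) : (P x).Finite := by
  have h1 := h.deg x hx
  have h2 : (P x).encard < m := lt_of_le_of_lt (encard_le_encard subset_union_right) h1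
  exact finite_of_encard_le_coe (k := m) h2.le

theorem Good.restrict {G : SimpleGraph V} {m : ℕ} {A B : Set V} (h : Good G m A B) (C : Set V) :
    Good G m (A ∩ C) (B ∩ C) := by
  obtain ⟨P, hP⟩ := h
  have key : ∀ x, x ∈ (B ∩ C) \ (A ∩ C) → x ∈ B \ A ∧ x ∈ C := by
    rintro x ⟨⟨hB, hC⟩, hA⟩
    exact ⟨⟨hB, fun h => hA ⟨h, hC⟩⟩, hC⟩
  refine ⟨fun x => P x ∩ C, ?_, ?_, ?_, ?_⟩
  · intro x hx y hy
    obtain ⟨hxBA, hxC⟩ := key x hx
    have := hP.sub x hxBA hy.1
    exact ⟨⟨this.1, hy.2⟩, fun h => this.2 h.1⟩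
  · refine Subrelation.wf ?_ hP.wf
    rintro y x ⟨hx, hy⟩
    exact ⟨(key x hx).1, hy.1⟩
  · intro x hx y hy hxy
    obtain ⟨hxBA, hxC⟩ := key x hx
    obtain ⟨hyBA, hyC⟩ := key y hy
    rcases hP.adj x hxBA y hyBA hxy with h | h
    · exact Or.inl ⟨h, hyC⟩
    · exact Or.inr ⟨h, hxC⟩
  · intro x hx
    obtain ⟨hxBA, hxC⟩ := key x hx
    refine lt_of_le_of_lt (encard_le_encard ?_) (hP.deg x hxBA)
    rintro y (⟨h1, h2⟩ | h)
    · exact Or.inl ⟨h1, h2.1⟩
    · exact Or.inr h.1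

/-- restriction of the top set -/
theorem Good.mono_right {G : SimpleGraph V} {m : ℕ} {A B C : Set V} (h : Good G m A B)
    (hAC : A ⊆ C) (hCB : C ⊆ B) : Good G m A C := by
  have := h.restrict C
  rwa [inter_eq_left.mpr hAC, inter_eq_right.mpr hCB] at this

/-- congruence / monotonicity in the graph -/
theorem Good.mono_graph {G H : SimpleGraph V} {m : ℕ} {A B : Set V} (h : Good G m A B)
    (hAB : A ⊆ B) (hle : ∀ x ∈ B \ A, ∀ y ∈ B, H.Adj x y → G.Adj x y) : Good H m A B := by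
  obtain ⟨P, hP⟩ := h
  refine ⟨P, hP.sub, hP.wf, ?_, ?_⟩
  · intro x hx y hy hxy
    exact hP.adj x hx y hy (hle x hx y hy.1 hxy)
  · intro x hx
    refine lt_of_le_of_lt (encard_le_encard ?_) (hP.deg x hx)
    rintro y (⟨h1, h2⟩ | h)
    · exact Or.inl ⟨hle x hx y (hAB h2) h1, h2⟩
    · exact Or.inr h

theorem Good.mono_nat {G : SimpleGraph V} {m k : ℕ} {A B : Set V} (h : Good G m A B)
    (hmk : m ≤ k) : Good G k A B := by
  obtain ⟨P, hP⟩ := h
  exact ⟨P, hP.sub, hP.wf, hP.adj, fun x hx => lt_of_lt_of_le (hP.deg x hx) (by exact_mod_cast hmk)⟩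

theorem good_self (G : SimpleGraph V) (m : ℕ) (A : Set V) : Good G m A A := by
  refine ⟨fun _ => ∅, ?_, ?_, ?_, ?_⟩
  · intro x hx; exact absurd hx.1 hx.2
  · exact ⟨fun a => ⟨a, fun y h => absurd h.2 (by simp)⟩⟩
  · intro x hx; exact absurd hx.1 hx.2
  · intro x hx; exact absurd hx.1 hx.2

/-- a pair with no edges from `B \ A` into `B` is `(m+1)`-good -/
theorem good_of_noEdge {G : SimpleGraph V} {m : ℕ} {A B : Set V}
    (hAB : A ⊆ B) (h : ∀ x ∈ B \ A, ∀ y ∈ B, ¬ G.Adj x y) : Good G (m + 1) A B := by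
  refine ⟨fun _ => ∅, ?_, ?_, ?_, ?_⟩
  · intro x hx y hy; exact absurd hy (by simp)
  · exact ⟨fun a => ⟨a, fun y h => absurd h.2 (by simp)⟩⟩
  · intro x hx y hy hxy; exact absurd hxy (h x hx y hy.1)
  · intro x hx
    have : ({y | G.Adj x y ∧ y ∈ A} ∪ (∅ : Set V)) = ∅ := by
      ext y
      simp only [union_empty, mem_ofPred_eq, mem_empty_iff_false, iff_false, not_and]
      intro h1 h2
      exact h x hx y (hAB h2) h1
    rw [this]
    simp

/-- concatenation along a level function with values in a well-founded linear order -/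
theorem good_concat {ι : Type*} [LinearOrder ι] [WellFoundedLT ι] {G : SimpleGraph V} {m : ℕ}
    {A B : Set V} (f : V → ι)
    (h : ∀ x ∈ B \ A, Good G m (A ∪ {y | y ∈ B ∧ f y < f x}) (A ∪ {y | y ∈ B ∧ f y ≤ f x})) :
    Good G m A B := by
  classical
  have h' : ∀ i : ι, ∃ P, (∃ x ∈ B \ A, f x = i) →
      Wit G m (A ∪ {y | y ∈ B ∧ f y < i}) (A ∪ {y | y ∈ B ∧ f y ≤ i}) P := by
    intro i
    by_cases hi : ∃ x ∈ B \ A, f x = i
    · obtain ⟨x, hx, rfl⟩ := hi
      obtain ⟨P, hP⟩ := h x hx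
      exact ⟨P, fun _ => hP⟩
    · exact ⟨fun _ => ∅, fun h => absurd h hi⟩
  choose Q hQ using h'
  have hQ' : ∀ x ∈ B \ A, Wit G m (A ∪ {y | y ∈ B ∧ f y < f x}) (A ∪ {y | y ∈ B ∧ f y ≤ f x})
      (Q (f x)) := fun x hx => hQ (f x) ⟨x, hx, rfl⟩
  have hlev : ∀ x ∈ B \ A, ∀ z, z ∈ B \ A → f z = f x →
      z ∈ (A ∪ {y | y ∈ B ∧ f y ≤ f x}) \ (A ∪ {y | y ∈ B ∧ f y < f x}) := by
    intro x hx z hz hzx
    refine ⟨Or.inr ⟨hz.1, hzx.le⟩, ?_⟩
    rintro (h1 | ⟨_, h1⟩)
    · exact hz.2 h1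
    · exact absurd h1 (by rw [hzx]; exact lt_irrefl _)
  have hQsub : ∀ x ∈ B \ A, ∀ y ∈ Q (f x) x, y ∈ B \ A ∧ f y = f x := by
    intro x hx y hy
    have h1 := (hQ' x hx).sub x (hlev x hx x hx rfl) hy
    obtain ⟨h2, h3⟩ := h1
    have hyA : y ∉ A := fun h => h3 (Or.inl h)
    rcases h2 with h2 | h2
    · exact absurd h2 hyA
    · refine ⟨⟨h2.1, hyA⟩, le_antisymm h2.2 ?_⟩
      by_contra h4
      exact h3 (Or.inr ⟨h2.1, lt_of_not_ge h4⟩)
  set P : V → Set V := fun x => {y | y ∈ B \ A ∧ G.Adj x y ∧ f y < f x} ∪ Q (f x) x with hP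
  refine ⟨P, ?_, ?_, ?_, ?_⟩
  · rintro x hx y (hy | hy)
    · exact hy.1
    · exact (hQsub x hx y hy).1
  · -- well-foundedness
    have main : ∀ i : ι, ∀ x, f x = i → Acc (fun y x => x ∈ B \ A ∧ y ∈ P x) x := by
      intro i
      induction i using WellFoundedLT.induction with
      | ind i IH =>
        by_cases hi : ∃ x ∈ B \ A, f x = i
        · intro x hxi
          obtain ⟨x₀, hx₀, hx₀i⟩ := hi
          have hw := (hQ i ⟨x₀, hx₀, hx₀i⟩).wf
          induction x using hw.induction with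
          | _ x IHx =>
            refine ⟨x, ?_⟩
            rintro y ⟨hx, hy⟩
            rcases hy with hy | hy
            · exact IH (f y) (hxi ▸ hy.2.2) y rfl
            · have h1 := hQsub x hx y hy
              refine IHx y ⟨?_, ?_⟩ (h1.2.trans hxi)
              · have := hlev x hx x hx rfl
                rwa [hxi] at this
              · rwa [hxi] at hy
        · intro x hxi
          refine ⟨x, ?_⟩
          rintro y ⟨hx, _⟩
          exact absurd ⟨x, hx, hxi⟩ hi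
    exact ⟨fun x => main (f x) x rfl⟩
  · intro x hx y hy hxy
    rcases lt_trichotomy (f x) (f y) with h1 | h1 | h1
    · exact Or.inr (Or.inl ⟨hx, hxy.symm, h1⟩)
    · rcases (hQ' x hx).adj x (hlev x hx x hx rfl) y (hlev x hx y hy h1.symm) hxy with h2 | h2
      · exact Or.inl (Or.inr h2)
      · refine Or.inr (Or.inr ?_)
        rwa [h1] at h2
    · exact Or.inl (Or.inl ⟨hy, hxy, h1⟩)
  · intro x hx
    refine lt_of_le_of_lt (encard_le_encard ?_) ((hQ' x hx).deg x (hlev x hx x hx rfl))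
    rintro y (⟨h1, h2⟩ | h2 | h2)
    · exact Or.inl ⟨h1, Or.inl h2⟩
    · exact Or.inl ⟨h2.2.1, Or.inr ⟨h2.1.1, h2.2.2⟩⟩
    · exact Or.inr h2

/-- transitivity -/
theorem Good.trans {G : SimpleGraph V} {m : ℕ} {A B C : Set V}
    (hAB : A ⊆ B) (hBC : B ⊆ C) (h1 : Good G m A B) (h2 : Good G m B C) : Good G m A C := by
  classical
  refine good_concat (ι := ℕ) (fun x => if x ∈ B then 0 else 1) ?_
  intro x hx
  by_cases hxB : x ∈ B
  · simp only [hxB, if_true]
    have e1 : A ∪ {y | y ∈ C ∧ (if y ∈ B then 0 else 1) < 0} = A := by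
      ext y; simp
    have e2 : A ∪ {y | y ∈ C ∧ (if y ∈ B then 0 else 1) ≤ 0} = B := by
      ext y
      simp only [mem_union, mem_ofPred_eq]
      constructor
      · rintro (h | ⟨_, h⟩)
        · exact hAB h
        · by_contra h3; simp [h3] at h
      · intro h; right; exact ⟨hBC h, by simp [h]⟩
    rw [e1, e2]; exact h1
  · simp only [hxB, if_false]
    have e1 : A ∪ {y | y ∈ C ∧ (if y ∈ B then 0 else 1) < 1} = B := by
      ext y
      simp only [mem_union, mem_ofPred_eq]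
      constructor
      · rintro (h | ⟨_, h⟩)
        · exact hAB h
        · by_contra h3; simp [h3] at h
      · intro h; right; exact ⟨hBC h, by simp [h]⟩
    have e2 : A ∪ {y | y ∈ C ∧ (if y ∈ B then 0 else 1) ≤ 1} = C := by
      ext y
      simp only [mem_union, mem_ofPred_eq]
      constructor
      · rintro (h | ⟨h, _⟩)
        · exact hBC (hAB h)
        · exact h
      · intro h; right; refine ⟨h, ?_⟩; split_ifs <;> simp
    rw [e1, e2]; exact h2

/-- closed sets -/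
theorem Wit.good_of_closed {G : SimpleGraph V} {m : ℕ} {A B : Set V} {P : V → Set V}
    (h : Wit G m A B P) {U : Set V} (hAU : A ⊆ U) (hUB : U ⊆ B)
    (hcl : ∀ x ∈ U \ A, P x ⊆ U) : Good G m U B := by
  have key : ∀ x, x ∈ B \ U → x ∈ B \ A := fun x hx => ⟨hx.1, fun h => hx.2 (hAU h)⟩
  refine ⟨fun x => P x \ U, ?_, ?_, ?_, ?_⟩
  · intro x hx y hy
    exact ⟨(h.sub x (key x hx) hy.1).1, hy.2⟩
  · refine Subrelation.wf ?_ h.wf
    rintro y x ⟨hx, hy⟩
    exact ⟨key x hx, hy.1⟩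
  · intro x hx y hy hxy
    rcases h.adj x (key x hx) y (key y hy) hxy with h1 | h1
    · exact Or.inl ⟨h1, hy.2⟩
    · exact Or.inr ⟨h1, hx.2⟩
  · intro x hx
    refine lt_of_le_of_lt (encard_le_encard ?_) (h.deg x (key x hx))
    rintro y (⟨h1, h2⟩ | h2)
    · by_cases hyA : y ∈ A
      · exact Or.inl ⟨h1, hyA⟩
      · rcases h.adj x (key x hx) y ⟨hUB h2, hyA⟩ h1 with h3 | h3
        · exact Or.inr h3
        · exact absurd (hcl y ⟨h2, hyA⟩ h3) hx.2
    · exact Or.inr h2.1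

/-- the set reachable from `X` by going to earlier neighbours, together with `A` -/
def cl (A B : Set V) (P : V → Set V) (X : Set V) : Set V :=
  A ∪ {y | ∃ x ∈ X \ A, Relation.ReflTransGen (fun y x => x ∈ B \ A ∧ y ∈ P x) y x}

theorem subset_cl {A B : Set V} {P : V → Set V} {X : Set V} : X ⊆ cl A B P X := by
  intro x hx
  by_cases h : x ∈ A
  · exact Or.inl h
  · exact Or.inr ⟨x, ⟨hx, h⟩, Relation.ReflTransGen.refl⟩

theorem left_subset_cl {A B : Set V} {P : V → Set V} {X : Set V} : A ⊆ cl A B P X :=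
  subset_union_left

theorem Wit.cl_subset {G : SimpleGraph V} {m : ℕ} {A B : Set V} {P : V → Set V}
    (h : Wit G m A B P) {X : Set V} (hAB : A ⊆ B) (hX : X ⊆ B) : cl A B P X ⊆ B := by
  rintro y (hy | ⟨x, hx, hyx⟩)
  · exact hAB hy
  · induction hyx using Relation.ReflTransGen.head_induction_on with
    | refl => exact hX hx.1
    | head h1 _ _ => exact (h.sub _ h1.1 h1.2).1

theorem Wit.cl_closed {G : SimpleGraph V} {m : ℕ} {A B : Set V} {P : V → Set V}
    (h : Wit G m A B P) {X : Set V} (hAB : A ⊆ B) (hX : X ⊆ B) :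
    ∀ x ∈ cl A B P X \ A, P x ⊆ cl A B P X := by
  rintro x ⟨hx, hxA⟩ y hy
  have hxB : x ∈ B := h.cl_subset hAB hX hx
  rcases hx with hx | ⟨z, hz, hxz⟩
  · exact absurd hx hxA
  · exact Or.inr ⟨z, hz, Relation.ReflTransGen.head ⟨⟨hxB, hxA⟩, hy⟩ hxz⟩

theorem Wit.reach_finite {G : SimpleGraph V} {m : ℕ} {A B : Set V} {P : V → Set V}
    (h : Wit G m A B P) (x : V) :
    {y | Relation.ReflTransGen (fun y x => x ∈ B \ A ∧ y ∈ P x) y x}.Finite := by
  induction x using h.wf.induction with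
  | _ x IH =>
    have hsub : {y | Relation.ReflTransGen (fun y x => x ∈ B \ A ∧ y ∈ P x) y x} ⊆
        {x} ∪ ⋃ z ∈ {z | x ∈ B \ A ∧ z ∈ P x},
          {y | Relation.ReflTransGen (fun y x => x ∈ B \ A ∧ y ∈ P x) y z} := by
      intro y hy
      rcases Relation.ReflTransGen.cases_tail hy with h1 | ⟨z, hz, hzx⟩
      · exact Or.inl h1.symm
      · refine Or.inr ?_
        simp only [mem_iUnion]
        exact ⟨z, hzx, hz⟩
    refine Finite.subset ?_ hsub
    refine (finite_singleton x).union (Finite.biUnion ?_ ?_)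
    · by_cases hx : x ∈ B \ A
      · exact (h.finite hx).subset (fun z hz => hz.2)
      · convert finite_empty (α := V)
        ext z
        simp only [mem_ofPred_eq, mem_empty_iff_false, iff_false, not_and]
        intro h1; exact absurd h1 hx
    · intro z hz
      exact IH z hz

theorem Wit.cl_finite {G : SimpleGraph V} {m : ℕ} {A B : Set V} {P : V → Set V}
    (h : Wit G m A B P) {X : Set V} (hX : (X \ A).Finite) : (cl A B P X \ A).Finite := by
  have hsub : cl A B P X \ A ⊆ ⋃ x ∈ X \ A,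
      {y | Relation.ReflTransGen (fun y x => x ∈ B \ A ∧ y ∈ P x) y x} := by
    rintro y ⟨hy | ⟨x, hx, hyx⟩, hyA⟩
    · exact absurd hy hyA
    · simp only [mem_iUnion]
      exact ⟨x, hx, hyx⟩
  exact (hX.biUnion fun x _ => h.reach_finite x).subset hsub

theorem Wit.cl_card {G : SimpleGraph V} {m : ℕ} {A B : Set V} {P : V → Set V}
    (h : Wit G m A B P) {X : Set V} {ν : Cardinal.{u}} (hν : ℵ₀ ≤ ν) (hX : #(X \ A : Set V) ≤ ν) :
    #(cl A B P X \ A : Set V) ≤ ν := by
  have hsub : cl A B P X \ A ⊆ ⋃ x ∈ X \ A,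
      {y | Relation.ReflTransGen (fun y x => x ∈ B \ A ∧ y ∈ P x) y x} := by
    rintro y ⟨hy | ⟨x, hx, hyx⟩, hyA⟩
    · exact absurd hy hyA
    · simp only [mem_iUnion]
      exact ⟨x, hx, hyx⟩
  refine (mk_le_mk_of_subset hsub).trans ((mk_biUnion_le _ _).trans ?_)
  calc #(X \ A : Set V) * ⨆ x : (X \ A : Set V), #({y | Relation.ReflTransGen
          (fun y x => x ∈ B \ A ∧ y ∈ P x) y x.1} : Set V)
      ≤ ν * ℵ₀ := by
        refine mul_le_mul' hX ?_
        refine ciSup_le' fun x => ?_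
        exact (lt_aleph0_iff_set_finite.mpr (h.reach_finite x.1)).le
    _ = ν := mul_aleph0_eq hν

end Pool.Agent.Work.MP_279ba3_co
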