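import Pool.Agent.Work.MP_279ba3_co.FiniteCase

set_option autoImplicit false

universe u

namespace Pool.Agent.Work.MP_279ba3_co

open Cardinal Set

variable {V : Type u}

/-- chains of length `ω` -/
theorem good_chain {G : SimpleGraph V} {m : ℕ} (C : ℕ → Set V) (hmono : ∀ n, C n ⊆ C (n + 1))
    (h : ∀ n, Good G m (C n) (C (n + 1))) : Good G m (C 0) (⋃ n, C n) := by
  classical
  have hm : Monotone C := monotone_nat_of_le_succ hmono
  refine good_concat (ι := ℕ) (fun x => sInf {n | x ∈ C n}) ?_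
  rintro x ⟨hx, hx0⟩
  have hmem : ∀ y, y ∈ (⋃ n, C n) → y ∈ C (sInf {n | y ∈ C n}) := by
    intro y hy
    obtain ⟨n, hn⟩ := mem_iUnion.mp hy
    exact Nat.sInf_mem (s := {n | y ∈ C n}) ⟨n, hn⟩
  have hle : ∀ y n, y ∈ C n → sInf {n | y ∈ C n} ≤ n := fun y n hy => Nat.sInf_le hy
  obtain ⟨k, hk⟩ : ∃ k, sInf {n | x ∈ C n} = k + 1 := by
    refine Nat.exists_eq_succ_of_ne_zero ?_
    intro h0
    have := hmem x hx
    rw [h0] at this
    exact hx0 this
  have e1 : C 0 ∪ {y | y ∈ (⋃ n, C n) ∧ sInf {n | y ∈ C n} < sInf {n | x ∈ C n}} = C k := by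
    ext y
    constructor
    · rintro (hy | ⟨hy, hlt⟩)
      · exact hm (Nat.zero_le k) hy
      · rw [hk] at hlt
        exact hm (Nat.lt_succ_iff.mp hlt) (hmem y hy)
    · intro hy
      right
      refine ⟨mem_iUnion.mpr ⟨k, hy⟩, ?_⟩
      rw [hk]
      exact Nat.lt_succ_of_le (hle y k hy)
  have e2 : C 0 ∪ {y | y ∈ (⋃ n, C n) ∧ sInf {n | y ∈ C n} ≤ sInf {n | x ∈ C n}} = C (k + 1) := by
    ext y
    constructor
    · rintro (hy | ⟨hy, hlt⟩)
      · exact hm (Nat.zero_le _) hy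
      · rw [hk] at hlt
        exact hm hlt (hmem y hy)
    · intro hy
      right
      refine ⟨mem_iUnion.mpr ⟨k + 1, hy⟩, ?_⟩
      rw [hk]
      exact hle y (k + 1) hy
  show Good G m (C 0 ∪ {y | y ∈ (⋃ n, C n) ∧ sInf {n | y ∈ C n} < sInf {n | x ∈ C n}})
    (C 0 ∪ {y | y ∈ (⋃ n, C n) ∧ sInf {n | y ∈ C n} ≤ sInf {n | x ∈ C n}})
  rw [e1, e2]
  exact h k

/-- gluing graphs along a chain of pairs -/
def glue {ι : Type*} (H : ι → SimpleGraph V) (P Q : ι → Set V) : SimpleGraph V where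
  Adj x y := ∃ i, (H i).Adj x y ∧ x ∈ Q i ∧ y ∈ Q i ∧ ¬ (x ∈ P i ∧ y ∈ P i)
  symm := ⟨fun _ _ ⟨i, h1, h2, h3, h4⟩ => ⟨i, h1.symm, h3, h2, fun h => h4 ⟨h.2, h.1⟩⟩⟩
  loopless := ⟨fun _ ⟨_, h, _⟩ => h.ne rfl⟩

theorem glue_le {ι : Type*} {G : SimpleGraph V} {H : ι → SimpleGraph V} {P Q : ι → Set V}
    (h : ∀ i, H i ≤ G) : glue H P Q ≤ G := by
  rintro x y ⟨i, h1, _⟩
  exact h i h1

theorem glue_adj_iff {ι : Type*} [LinearOrder ι] {H : ι → SimpleGraph V} {P Q : ι → Set V}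
    (hPQ : ∀ i j, i < j → Q i ⊆ P j) {i : ι} {x y : V} (hx : x ∈ Q i \ P i) (hy : y ∈ Q i) :
    (glue H P Q).Adj x y ↔ (H i).Adj x y := by
  constructor
  · rintro ⟨j, h1, h2, h3, h4⟩
    rcases lt_trichotomy i j with h | h | h
    · exact absurd ⟨hPQ i j h hx.1, hPQ i j h hy⟩ h4
    · subst h; exact h1
    · exact absurd (hPQ j i h h2) hx.2
  · intro h
    exact ⟨i, h, hx.1, hy, fun h' => hx.2 h'.1⟩

theorem glue_good_iff {ι : Type*} [LinearOrder ι] {H : ι → SimpleGraph V} {P Q : ι → Set V}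
    (hPQ : ∀ i j, i < j → Q i ⊆ P j) (hsub : ∀ i, P i ⊆ Q i) (i : ι) (m : ℕ) :
    Good (glue H P Q) m (P i) (Q i) ↔ Good (H i) m (P i) (Q i) := by
  constructor
  · intro h
    exact h.mono_graph (hsub i) fun x hx y hy hxy => (glue_adj_iff hPQ hx hy).mpr hxy
  · intro h
    exact h.mono_graph (hsub i) fun x hx y hy hxy => (glue_adj_iff hPQ hx hy).mp hxy

/-- The main statement for countable `B \ A`, assuming all finite pieces are good. -/
theorem countable_case {G : SimpleGraph V} {m : ℕ} {A B : Set V} (hAB : A ⊆ B)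
    (hcount : (B \ A).Countable)
    (hfin : ∀ C, A ⊆ C → C ⊆ B → (C \ A).Finite → Good G m A C)
    (hbad : ¬ Good G m A B) :
    ∃ H : SimpleGraph V, H ≤ G ∧ Good H (m + 1) A B ∧ ¬ Good H m A B := by
  classical
  let isFin : Set V → Prop := fun C => A ⊆ C ∧ C ⊆ B ∧ (C \ A).Finite
  have claim1 : ∃ F0, isFin F0 ∧ ∀ C, isFin C → F0 ⊆ C → ∃ D, isFin D ∧ C ⊆ D ∧ ¬ Good G m C D := by
    by_contra hno
    push Not at hno
    have hne : (B \ A).Nonempty := by
      by_contra he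
      rw [not_nonempty_iff_eq_empty, sdiff_eq_empty] at he
      have : A = B := hAB.antisymm he
      subst this
      exact hbad (good_self G m A)
    obtain ⟨e, he⟩ := hcount.exists_eq_range hne
    have hA : isFin A := ⟨subset_rfl, hAB, by simp⟩
    have hAfree : ∀ D, isFin D → A ⊆ D → Good G m A D := fun D hD _ => hfin D hD.1 hD.2.1 hD.2.2
    have hadd : ∀ C, isFin C → ∀ n, isFin (C ∪ {e n}) := by
      intro C hC n
      have hen : e n ∈ B \ A := by rw [he]; exact mem_range_self n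
      refine ⟨hC.1.trans subset_union_left, union_subset hC.2.1 (singleton_subset_iff.mpr hen.1), ?_⟩
      refine (hC.2.2.union (finite_singleton (e n))).subset ?_
      rintro x ⟨hx | hx, hxA⟩
      · exact Or.inl ⟨hx, hxA⟩
      · exact Or.inr hx
    let S := {C : Set V // isFin C ∧ ∀ D, isFin D → C ⊆ D → Good G m C D}
    have hstep : ∀ (n : ℕ) (C : S), ∃ C' : S, C.1 ∪ {e n} ⊆ C'.1 := by
      rintro n ⟨C, hC, hfree⟩
      obtain ⟨D, hD1, hD2, hD3⟩ := hno (C ∪ {e n}) (hadd C hC n)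
      exact ⟨⟨D, hD1, hD3⟩, hD2⟩
    choose nxt hnxt using hstep
    let C : ℕ → S := fun n => Nat.rec ⟨A, hA, hAfree⟩ nxt n
    have hC0 : (C 0).1 = A := rfl
    have hCs : ∀ n, (C n).1 ∪ {e n} ⊆ (C (n + 1)).1 := fun n => hnxt n (C n)
    have hmono : ∀ n, (C n).1 ⊆ (C (n + 1)).1 := fun n => subset_union_left.trans (hCs n)
    have hU : (⋃ n, (C n).1) = B := by
      apply Subset.antisymm
      · exact iUnion_subset fun n => (C n).2.1.2.1
      · intro x hx
        by_cases hxA : x ∈ A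
        · exact mem_iUnion.mpr ⟨0, hxA⟩
        · have : x ∈ range e := by rw [← he]; exact ⟨hx, hxA⟩
          obtain ⟨n, rfl⟩ := this
          exact mem_iUnion.mpr ⟨n + 1, hCs n (Or.inr rfl)⟩
    have hg := good_chain (G := G) (m := m) (fun n => (C n).1) hmono
      (fun n => (C n).2.2 _ (C (n + 1)).2.1 (hmono n))
    rw [hU] at hg
    exact hbad hg
  obtain ⟨F0, hF0, hF⟩ := claim1
  have claim2 : ∀ F : {F : Set V // isFin F ∧ F0 ⊆ F}, ∃ D : {F : Set V // isFin F ∧ F0 ⊆ F},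
      F.1 ⊆ D.1 ∧ ¬ Good G m F.1 D.1 ∧ ∀ C, F.1 ⊆ C → C ⊆ D.1 → C ≠ D.1 → Good G m F.1 C := by
    rintro ⟨F, hF1, hF2⟩
    let T : Set (Set V) := {D | isFin D ∧ F ⊆ D ∧ ¬ Good G m F D}
    have hTne : T.Nonempty := by
      obtain ⟨D, hD⟩ := hF F hF1 hF2
      exact ⟨D, hD⟩
    obtain ⟨D, hDT, hDmin⟩ := (measure fun D : Set V => (D \ A).ncard).wf.has_min T hTne
    refine ⟨⟨D, hDT.1, hF2.trans hDT.2.1⟩, hDT.2.1, hDT.2.2, ?_⟩
    intro C hFC hCD hne
    by_contra hCbad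
    have hCfin : isFin C := ⟨hF1.1.trans hFC, hCD.trans hDT.1.2.1,
      hDT.1.2.2.subset (sdiff_subset_sdiff_left hCD)⟩
    refine hDmin C ⟨hCfin, hFC, hCbad⟩ ?_
    show (C \ A).ncard < (D \ A).ncard
    refine ncard_lt_ncard ?_ hDT.1.2.2
    refine ⟨sdiff_subset_sdiff_left hCD, fun hsub => hne (hCD.antisymm ?_)⟩
    intro x hx
    by_cases hxA : x ∈ A
    · exact hCfin.1 hxA
    · exact (hsub ⟨hx, hxA⟩).1
  choose nxt hnxt1 hnxt2 hnxt3 using claim2
  let F : ℕ → {F : Set V // isFin F ∧ F0 ⊆ F} := fun n => Nat.rec ⟨F0, hF0, subset_rfl⟩ (fun _ => nxt) n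
  have hFmono : ∀ n, (F n).1 ⊆ (F (n + 1)).1 := fun n => hnxt1 (F n)
  have hFbad : ∀ n, ¬ Good G m (F n).1 (F (n + 1)).1 := fun n => hnxt2 (F n)
  have hFmin : ∀ n C, (F n).1 ⊆ C → C ⊆ (F (n + 1)).1 → C ≠ (F (n + 1)).1 → Good G m (F n).1 C :=
    fun n => hnxt3 (F n)
  have hFm : Monotone fun n => (F n).1 := monotone_nat_of_le_succ hFmono
  have hH : ∀ n, ∃ H : SimpleGraph V, H ≤ G ∧ Good H (m + 1) (F n).1 (F (n + 1)).1 ∧
      ¬ Good H m (F n).1 (F (n + 1)).1 := by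
    intro n
    refine finite_case (hFmono n) ?_ (hFbad n)
    refine (F (n + 1)).2.1.2.2.subset ?_
    exact sdiff_subset_sdiff_right (F n).2.1.1
  choose Hs hHle hHgood hHbad using hH
  let H := glue Hs (fun n => (F n).1) (fun n => (F (n + 1)).1)
  have hPQ : ∀ i j, i < j → (F (i + 1)).1 ⊆ (F j).1 := fun i j hij => hFm hij
  have hiff := glue_good_iff (H := Hs) (P := fun n => (F n).1) (Q := fun n => (F (n + 1)).1) hPQ hFmono
  have hUB : (⋃ n, (F n).1) ⊆ B := iUnion_subset fun n => (F n).2.1.2.1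
  have hAF0 : A ⊆ F0 := hF0.1
  refine ⟨H, glue_le hHle, ?_, ?_⟩
  · have g1 : Good H (m + 1) A F0 := by
      refine good_of_noEdge hF0.1 ?_
      rintro x hx y hy ⟨i, _, _, _, h4⟩
      exact h4 ⟨hFm (Nat.zero_le i) hx.1, hFm (Nat.zero_le i) hy⟩
    have g2 : Good H (m + 1) (F 0).1 (⋃ n, (F n).1) :=
      good_chain (G := H) (m := m + 1) (fun n => (F n).1) hFmono (fun n => (hiff n (m + 1)).mpr (hHgood n))
    have g3 : Good H (m + 1) (⋃ n, (F n).1) B := by
      refine good_of_noEdge hUB ?_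
      rintro x hx y hy ⟨i, _, h2, _, _⟩
      exact hx.2 (mem_iUnion.mpr ⟨i + 1, h2⟩)
    exact (g1.trans hF0.1 (subset_iUnion (fun n => (F n).1) 0) g2).trans
      (hF0.1.trans (subset_iUnion (fun n => (F n).1) 0)) hUB g3
  · rintro ⟨P, hP⟩
    let X := cl A B P F0
    have hXB : X ⊆ B := hP.cl_subset hAB hF0.2.1
    have hXfin : (X \ A).Finite := hP.cl_finite hF0.2.2
    have hXgood : Good H m X B := hP.good_of_closed left_subset_cl hXB (hP.cl_closed hAB hF0.2.1)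
    have hall : ∀ n, (F n).1 ⊆ X := by
      intro n
      induction n with
      | zero => exact subset_cl
      | succ n IH =>
        by_contra hnot
        have hC1 : (F n).1 ⊆ X ∩ (F (n + 1)).1 := subset_inter IH (hFmono n)
        have hC2 : X ∩ (F (n + 1)).1 ⊆ (F (n + 1)).1 := inter_subset_right
        have hC3 : X ∩ (F (n + 1)).1 ≠ (F (n + 1)).1 := fun h => hnot (inter_eq_right.mp h)
        have g1 : Good H m (F n).1 (X ∩ (F (n + 1)).1) :=
          (hFmin n _ hC1 hC2 hC3).mono_graph hC1 fun x _ y _ hxy => glue_le hHle hxy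
        have g2 : Good H m (X ∩ (F (n + 1)).1) (F (n + 1)).1 := by
          have := hXgood.restrict (F (n + 1)).1
          rwa [inter_eq_right.mpr (F (n + 1)).2.1.2.1] at this
        exact hHbad n ((hiff n m).mp (g1.trans hC1 hC2 g2))
    -- strictly increasing finite sets inside a finite set
    have hstrict : ∀ n, (F n).1 ≠ (F (n + 1)).1 := by
      intro n h
      apply hFbad n
      rw [← h]
      exact good_self G m _
    have hcard : ∀ n, n ≤ ((F n).1 \ A).ncard := by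
      intro n
      induction n with
      | zero => exact Nat.zero_le _
      | succ n IH =>
        refine lt_of_le_of_lt IH (ncard_lt_ncard ?_ (F (n + 1)).2.1.2.2)
        refine ⟨sdiff_subset_sdiff_left (hFmono n), fun hsub => hstrict n ((hFmono n).antisymm ?_)⟩
        intro x hx
        by_cases hxA : x ∈ A
        · exact (F n).2.1.1 hxA
        · exact (hsub ⟨hx, hxA⟩).1
    have h1 := hcard ((X \ A).ncard + 1)
    have h2 : (((F ((X \ A).ncard + 1)).1) \ A).ncard ≤ (X \ A).ncard :=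
      ncard_le_ncard (sdiff_subset_sdiff_left (hall ((X \ A).ncard + 1))) hXfin
    omega

end Pool.Agent.Work.MP_279ba3_co
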