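import Mathlib

set_option autoImplicit false

universe u

namespace Pool.Agent.Work.MP_279ba3_co

/-- The colouring number `col G` of a graph `G`: the least cardinal `κ` such that the vertex set
has a well-ordering `r` in which every vertex `x` has fewer than `κ` neighbours `y` with
`y` smaller than `x`. -/
noncomputable def coloringNumber {V : Type u} (G : SimpleGraph V) : Cardinal.{u} :=
  sInf {κ : Cardinal.{u} | ∃ r : V → V → Prop, IsWellOrder V r ∧
    ∀ x : V, Cardinal.mk {y : V // G.Adj x y ∧ r y x} < κ}

end Pool.Agent.Work.MP_279ba3_co
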