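import Pool.Agent.Work.MP_279ba3_co.CountableCase

set_option autoImplicit false

universe u

namespace Pool.Agent.Work.MP_279ba3_co

open Cardinal Set

variable {V : Type u}

/-- transfinite recursion building an increasing continuous chain of sets -/
noncomputable def filt (A : Set V) (E : Ordinal.{u} → Set V → Set V) (i : Ordinal.{u}) : Set V :=
  A ∪ ⋃ j : Iio i, E j.1 (filt A E j.1)
termination_by i
decreasing_by exact j.2

theorem mem_filt {A : Set V} {E : Ordinal.{u} → Set V → Set V} {i : Ordinal.{u}} {x : V} :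
    x ∈ filt A E i ↔ x ∈ A ∨ ∃ j < i, x ∈ E j (filt A E j) := by
  rw [filt]
  simp only [mem_union, mem_iUnion, Subtype.exists, mem_Iio, exists_prop]

theorem filt_mono {A : Set V} {E : Ordinal.{u} → Set V → Set V} {i j : Ordinal.{u}} (h : i ≤ j) :
    filt A E i ⊆ filt A E j := by
  intro x hx
  rw [mem_filt] at hx ⊢
  rcases hx with hx | ⟨k, hk, hx⟩
  · exact Or.inl hx
  · exact Or.inr ⟨k, hk.trans_le h, hx⟩

theorem base_subset_filt {A : Set V} {E : Ordinal.{u} → Set V → Set V} (i : Ordinal.{u}) :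
    A ⊆ filt A E i := fun _ hx => mem_filt.mpr (Or.inl hx)

theorem E_subset_filt {A : Set V} {E : Ordinal.{u} → Set V → Set V} {i j : Ordinal.{u}}
    (h : j < i) : E j (filt A E j) ⊆ filt A E i := fun _ hx => mem_filt.mpr (Or.inr ⟨j, h, hx⟩)

/-- the level at which an element enters -/
noncomputable def lev (A : Set V) (E : Ordinal.{u} → Set V → Set V) (x : V) : Ordinal.{u} :=
  sInf {j | x ∈ E j (filt A E j)}

theorem lev_lt_iff {A : Set V} {E : Ordinal.{u} → Set V → Set V} {x : V} (hxA : x ∉ A)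
    (hx : ∃ j, x ∈ E j (filt A E j)) (i : Ordinal.{u}) : lev A E x < i ↔ x ∈ filt A E i := by
  rw [mem_filt]
  constructor
  · intro h
    right
    exact ⟨lev A E x, h, csInf_mem (s := {j | x ∈ E j (filt A E j)}) hx⟩
  · rintro (h | ⟨j, hj, h⟩)
    · exact absurd h hxA
    · exact lt_of_le_of_lt (csInf_le' h) hj

theorem filt_subset {A B : Set V} {E : Ordinal.{u} → Set V → Set V} (hAB : A ⊆ B)
    (hE : ∀ j C, A ⊆ C → C ⊆ B → E j C ⊆ B) (i : Ordinal.{u}) : filt A E i ⊆ B := by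
  induction i using WellFoundedLT.induction with
  | ind i IH =>
    intro x hx
    rw [mem_filt] at hx
    rcases hx with hx | ⟨k, hk, hx⟩
    · exact hAB hx
    · exact hE k _ (base_subset_filt k) (IH k hk) hx

theorem filt_card {A A₀ B : Set V} {E : Ordinal.{u} → Set V → Set V} {κ : Cardinal.{u}}
    (hreg : κ.IsRegular) (hAB : A ⊆ B) (hA : #(A \ A₀ : Set V) < κ)
    (hE : ∀ j C, A ⊆ C → C ⊆ B → #(C \ A₀ : Set V) < κ → E j C ⊆ B ∧ #(E j C \ A₀ : Set V) < κ)
    (i : Ordinal.{u}) (hi : i < κ.ord) : filt A E i ⊆ B ∧ #(filt A E i \ A₀ : Set V) < κ := by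
  induction i using WellFoundedLT.induction with
  | ind i IH =>
    have h1 : ∀ j < i, E j (filt A E j) ⊆ B ∧ #(E j (filt A E j) \ A₀ : Set V) < κ := by
      intro j hj
      obtain ⟨h2, h3⟩ := IH j hj (hj.trans hi)
      exact hE j _ (base_subset_filt j) h2 h3
    constructor
    · intro x hx
      rw [mem_filt] at hx
      rcases hx with hx | ⟨k, hk, hx⟩
      · exact hAB hx
      · exact (h1 k hk).1 hx
    · have hsub : filt A E i \ A₀ ⊆ (A \ A₀) ∪
          ⋃ t : i.ToType, (E (Ordinal.ToType.mk.symm t).1 (filt A E (Ordinal.ToType.mk.symm t).1) \ A₀) := by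
        rintro x ⟨hx, hxA⟩
        rw [mem_filt] at hx
        rcases hx with hx | ⟨k, hk, hx⟩
        · exact Or.inl ⟨hx, hxA⟩
        · refine Or.inr (mem_iUnion.mpr ⟨Ordinal.ToType.mk ⟨k, hk⟩, ?_⟩)
          simp only [OrderIso.symm_apply_apply]
          exact ⟨hx, hxA⟩
      refine lt_of_le_of_lt ((mk_le_mk_of_subset hsub).trans (mk_union_le _ _)) ?_
      refine add_lt_of_lt hreg.aleph0_le hA ?_
      rw [card_iUnion_lt_iff_forall_of_isRegular hreg]
      · intro t
        exact (h1 _ (Ordinal.ToType.mk.symm t).2).2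
      · rw [mk_toType]
        exact lt_ord.mp hi

/-- closure points -/
theorem exists_closure_point {κ : Cardinal.{u}} (hreg : κ.IsRegular) (hκ : ℵ₀ < κ)
    (D : Set V) (f : V → Ordinal.{u}) (P : V → Set V)
    (hf : ∀ x ∈ D, f x < κ.ord)
    (hcard : ∀ i < κ.ord, #({x | x ∈ D ∧ f x < i} : Set V) < κ)
    (hfin : ∀ x ∈ D, (P x).Finite) (hsub : ∀ x ∈ D, P x ⊆ D)
    (i : Ordinal.{u}) (hi : i < κ.ord) :
    ∃ i', i < i' ∧ i' < κ.ord ∧ ∀ x ∈ D, f x < i' → ∀ y ∈ P x, f y < i' := by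
  classical
  let T : Ordinal.{u} → Set V := fun j => ⋃ x ∈ {x | x ∈ D ∧ f x < j}, P x
  have hTcard : ∀ j < κ.ord, #(T j) < κ := by
    intro j hj
    show #(⋃ x ∈ {x | x ∈ D ∧ f x < j}, P x : Set V) < κ
    rw [card_biUnion_lt_iff_forall_of_isRegular hreg (hcard j hj)]
    intro x hx
    exact (lt_aleph0_iff_set_finite.mpr (hfin x hx.1)).trans hκ
  let g : Ordinal.{u} → Ordinal.{u} := fun j => ⨆ y : T j, (f y.1 + 1)
  have hg : ∀ j < κ.ord, g j < κ.ord := by
    intro j hj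
    refine Ordinal.iSup_add_one_lt_of_lt_cof ?_ ?_
    · rw [hreg.cof_ord]; exact hTcard j hj
    · rintro ⟨y, hy⟩
      simp only [T, mem_iUnion] at hy
      obtain ⟨x, hx, hy⟩ := hy
      exact hf y (hsub x hx.1 hy)
  have hgle : ∀ j, ∀ x ∈ D, f x < j → ∀ y ∈ P x, f y + 1 ≤ g j := by
    intro j x hx hxj y hy
    have hyT : y ∈ T j := by
      simp only [T, mem_iUnion]
      exact ⟨x, ⟨hx, hxj⟩, hy⟩
    exact Ordinal.le_iSup (fun y : T j => f y.1 + 1) ⟨y, hyT⟩
  have hlim : Order.IsSuccLimit κ.ord := isSuccLimit_ord hreg.aleph0_le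
  let s : ℕ → Ordinal.{u} := fun n => Nat.rec (i + 1) (fun _ r => max r (g r)) n
  have hs : ∀ n, s n < κ.ord := by
    intro n
    induction n with
    | zero => exact hlim.succ_lt hi
    | succ n IH => exact max_lt IH (hg _ IH)
  have hs1 : ∀ n, g (s n) ≤ s (n + 1) := fun n => le_max_right _ _
  refine ⟨⨆ n : ULift.{u} ℕ, s n.down, ?_, ?_, ?_⟩
  · refine lt_of_lt_of_le ?_ (Ordinal.le_iSup (fun n : ULift.{u} ℕ => s n.down) ⟨0⟩)
    show i < i + 1
    exact lt_add_one i
  · refine Ordinal.iSup_lt_of_lt_cof ?_ (fun n => hs n.down)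
    rw [hreg.cof_ord]
    simpa using hκ
  · intro x hx hfx y hy
    rw [Ordinal.lt_iSup_iff] at hfx
    obtain ⟨⟨n⟩, hn⟩ := hfx
    have h1 := (hgle (s n) x hx hn y hy).trans (hs1 n)
    have h2 : f y < s (n + 1) := lt_of_lt_of_le (lt_add_one _) h1
    exact h2.trans_le (Ordinal.le_iSup (fun n : ULift.{u} ℕ => s n.down) ⟨n + 1⟩)

end Pool.Agent.Work.MP_279ba3_co
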