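import Pool.Agent.Work.MP_279ba3_co.Basic

set_option autoImplicit false

universe u

namespace Pool.Agent.Work.MP_279ba3_co

open Cardinal Set

variable {V : Type u}

/-- remove all edges meeting `S` -/
def delV (G : SimpleGraph V) (S : Set V) : SimpleGraph V where
  Adj x y := G.Adj x y ∧ x ∉ S ∧ y ∉ S
  symm := ⟨fun _ _ h => ⟨h.1.symm, h.2.2, h.2.1⟩⟩
  loopless := ⟨fun _ h => h.1.ne rfl⟩

theorem delV_le (G : SimpleGraph V) (S : Set V) : delV G S ≤ G := fun _ _ h => h.1

/-- one vertex at a time -/
theorem good_step {G : SimpleGraph V} {m : ℕ} {A B : Set V} {S : Set V} {b : V}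
    (hbB : b ∈ B \ A)
    (hdeg : {y | G.Adj b y ∧ y ∈ A}.encard < m)
    (h : Good (delV G (insert b S)) m A B) : Good (delV G S) (m + 1) A B := by
  classical
  have hbA : b ∉ A := hbB.2
  obtain ⟨P, hP⟩ := h
  refine ⟨fun x => if x = b then ∅ else insert b (P x), ?_, ?_, ?_, ?_⟩
  · intro x hx
    by_cases hxb : x = b
    · simp [hxb]
    · simp only [hxb, if_false]
      exact insert_subset hbB (hP.sub x hx)
  · have hb : Acc (fun y x => x ∈ B \ A ∧ y ∈ (if x = b then (∅ : Set V) else insert b (P x))) b := by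
      refine ⟨b, fun y hy => ?_⟩
      simp at hy
    refine ⟨fun x => ?_⟩
    induction x using hP.wf.induction with
    | _ x IH =>
      refine ⟨x, fun y hy => ?_⟩
      by_cases hxb : x = b
      · simp [hxb] at hy
      · simp only [hxb, if_false] at hy
        rcases hy.2 with h1 | h1
        · rw [h1]; exact hb
        · exact IH y ⟨hy.1, h1⟩
  · intro x hx y hy hxy
    by_cases hxb : x = b
    · have hyb : y ≠ b := by
        rintro rfl; subst hxb; exact hxy.1.ne rfl
      right
      simp [hyb, hxb]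
    · by_cases hyb : y = b
      · left; simp [hyb, hxb]
      · have h1 : (delV G (insert b S)).Adj x y :=
          ⟨hxy.1, by simp [hxb, hxy.2.1], by simp [hyb, hxy.2.2]⟩
        rcases hP.adj x hx y hy h1 with h2 | h2
        · left; simp [hxb, h2]
        · right; simp [hyb, h2]
  · intro x hx
    by_cases hxb : x = b
    · subst hxb
      simp only [if_true, union_empty]
      refine lt_of_le_of_lt (encard_le_encard ?_) (lt_of_lt_of_le hdeg (by exact_mod_cast Nat.le_succ m))
      rintro y ⟨h1, h2⟩
      exact ⟨h1.1, h2⟩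
    · simp only [hxb, if_false]
      have h1 := hP.deg x hx
      have h2 : ({y | (delV G S).Adj x y ∧ y ∈ A} ∪ insert b (P x)) ⊆
          insert b ({y | (delV G (insert b S)).Adj x y ∧ y ∈ A} ∪ P x) := by
        rintro y (⟨h3, h4⟩ | h3 | h3)
        · have hyb : y ≠ b := by rintro rfl; exact hbA h4
          exact Or.inr (Or.inl ⟨⟨h3.1, by simp [hxb, h3.2.1], by simp [hyb, h3.2.2]⟩, h4⟩)
        · exact Or.inl h3
        · exact Or.inr (Or.inr h3)
      refine lt_of_le_of_lt (encard_le_encard h2) (lt_of_le_of_lt (encard_insert_le _ _) ?_)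
      push_cast
      exact ENat.add_lt_add_of_lt_of_le (by simp) h1 le_rfl

/-- star with centre `b` and leaves `T` -/
def starG (b : V) (T : Set V) (hb : b ∉ T) : SimpleGraph V where
  Adj x y := (x = b ∧ y ∈ T) ∨ (y = b ∧ x ∈ T)
  symm := ⟨fun _ _ h => h.symm⟩
  loopless := ⟨fun x h => by
    rcases h with ⟨h1, h2⟩ | ⟨h1, h2⟩ <;> (subst h1; exact hb h2)⟩

/-- The main statement for finite `B \ A`. -/
theorem finite_case {G : SimpleGraph V} {m : ℕ} {A B : Set V} (hAB : A ⊆ B)
    (hfin : (B \ A).Finite) (hbad : ¬ Good G m A B) :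
    ∃ H : SimpleGraph V, H ≤ G ∧ Good H (m + 1) A B ∧ ¬ Good H m A B := by
  classical
  by_cases hcase : ∃ b ∈ B \ A, (m : ℕ∞) ≤ {y | G.Adj b y ∧ y ∈ A}.encard
  · obtain ⟨b, hb, hle⟩ := hcase
    obtain ⟨T, hTsub, hTcard⟩ := exists_subset_encard_eq hle
    have hbT : b ∉ T := fun h => (hTsub h).1.ne rfl
    refine ⟨starG b T hbT, ?_, ?_, ?_⟩
    · rintro x y (⟨rfl, h⟩ | ⟨rfl, h⟩)
      · exact (hTsub h).1
      · exact (hTsub h).1.symm
    · refine ⟨fun _ => ∅, ?_, ?_, ?_, ?_⟩
      · intro x _ y hy; exact absurd hy (by simp)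
      · exact ⟨fun a => ⟨a, fun y h => absurd h.2 (by simp)⟩⟩
      · rintro x hx y hy (⟨rfl, h⟩ | ⟨rfl, h⟩)
        · exact absurd (hTsub h).2 hy.2
        · exact absurd (hTsub h).2 hx.2
      · intro x hx
        have : ({y | (starG b T hbT).Adj x y ∧ y ∈ A} ∪ (∅ : Set V)) ⊆ T := by
          simp only [union_empty]
          rintro y ⟨⟨rfl, h⟩ | ⟨rfl, h⟩, hyA⟩
          · exact h
          · exact absurd hyA hb.2
        refine lt_of_le_of_lt (encard_le_encard this) ?_
        rw [hTcard]
        exact_mod_cast Nat.lt_succ_self m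
    · rintro ⟨P, hP⟩
      have h1 := hP.deg b hb
      have h2 : T ⊆ ({y | (starG b T hbT).Adj b y ∧ y ∈ A} ∪ P b) := by
        intro y hy
        exact Or.inl ⟨Or.inl ⟨rfl, hy⟩, (hTsub hy).2⟩
      have h3 := encard_le_encard h2
      rw [hTcard] at h3
      exact absurd (lt_of_le_of_lt h3 h1) (lt_irrefl _)
  · push Not at hcase
    -- one of the steps changes badness
    have hstep : ∃ S : Set V, ∃ b ∈ B \ A, ¬ Good (delV G S) m A B ∧
        Good (delV G (insert b S)) m A B := by
      by_contra hno
      push Not at hno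
      have hall : ∀ T : Set V, T ⊆ B \ A → T.Finite → ¬ Good (delV G T) m A B := by
        intro T hT hTf
        induction T, hTf using Set.Finite.induction_on with
        | empty =>
          intro h
          refine hbad (h.mono_graph hAB ?_)
          intro x _ y _ hxy
          exact ⟨hxy, by simp, by simp⟩
        | @insert a S _ _ IH =>
          exact hno S a (hT (mem_insert _ _)) (IH ((subset_insert _ _).trans hT))
      have hne : (B \ A).Nonempty := by
        by_contra he
        rw [not_nonempty_iff_eq_empty, sdiff_eq_empty] at he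
        have : A = B := hAB.antisymm he
        subst this
        exact hbad (good_self G m A)
      have hm : m ≠ 0 := by
        rintro rfl
        obtain ⟨b, hb⟩ := hne
        have := hcase b hb
        simp at this
      obtain ⟨k, rfl⟩ := Nat.exists_eq_succ_of_ne_zero hm
      refine hall (B \ A) subset_rfl hfin (good_of_noEdge hAB ?_)
      intro x hx y hy hxy
      exact hxy.2.1 hx
    obtain ⟨S, b, hb, h1, h2⟩ := hstep
    exact ⟨delV G S, delV_le G S, good_step hb (hcase b hb) h2, h1⟩

end Pool.Agent.Work.MP_279ba3_co
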