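import Pool.Agent.Work.MP_279ba3_co.SingularCase
import Pool.Agent.Work.MP_279ba3_co.Def

set_option autoImplicit false

universe u

namespace Pool.Agent.Work.MP_279ba3_co

open Cardinal Set

variable {V : Type u}

/-- restrict a graph to a set of vertices, keeping all vertices -/
def restr (H : SimpleGraph V) (C : Set V) : SimpleGraph V where
  Adj x y := H.Adj x y ∧ x ∈ C ∧ y ∈ C
  symm := ⟨fun _ _ h => ⟨h.1.symm, h.2.2, h.2.1⟩⟩
  loopless := ⟨fun _ h => h.1.ne rfl⟩

/-- **Main theorem**, relative form. -/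
theorem main_rel (G : SimpleGraph V) (m : ℕ) :
    ∀ κ : Cardinal.{u}, ∀ A B : Set V, A ⊆ B → #(B \ A : Set V) = κ → ¬ Good G m A B →
      ∃ H : SimpleGraph V, H ≤ G ∧ Good H (m + 1) A B ∧ ¬ Good H m A B := by
  classical
  intro κ
  induction κ using WellFoundedLT.induction with
  | ind κ IH =>
    intro A B hAB hcard hbad
    by_cases hex : ∃ C, A ⊆ C ∧ C ⊆ B ∧ #(C \ A : Set V) < κ ∧ ¬ Good G m A C
    · obtain ⟨C, hAC, hCB, hCκ, hCbad⟩ := hex
      obtain ⟨H, hHG, hHgood, hHbad⟩ := IH _ hCκ A C hAC rfl hCbad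
      refine ⟨restr H C, fun x y h => hHG h.1, ?_, ?_⟩
      · have g1 : Good (restr H C) (m + 1) A C := hHgood.mono_graph hAC fun x _ y _ h => h.1
        have g2 : Good (restr H C) (m + 1) C B := good_of_noEdge hCB fun x hx y _ h => hx.2 h.2.1
        exact g1.trans hAC hCB g2
      · intro h
        refine hHbad ((h.mono_right hAC hCB).mono_graph hAC ?_)
        intro x hx y hy hxy
        exact ⟨hxy, hx.1, hy⟩
    · have hsmall : ∀ C, A ⊆ C → C ⊆ B → #(C \ A : Set V) < κ → Good G m A C := by
        intro C h1 h2 h3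
        by_contra h4
        exact hex ⟨C, h1, h2, h3, h4⟩
      rcases lt_trichotomy κ ℵ₀ with h | h | h
      · refine finite_case hAB ?_ hbad
        rw [← lt_aleph0_iff_set_finite, hcard]; exact h
      · refine countable_case hAB ?_ ?_ hbad
        · rw [← Cardinal.le_aleph0_iff_set_countable, hcard]; exact h.le
        · intro C h1 h2 h3
          refine hsmall C h1 h2 ?_
          rw [h]; exact lt_aleph0_iff_set_finite.mpr h3
      · by_cases hreg : κ.IsRegular
        · exact regular_case hAB hreg h hcard hbad fun A' B' h1 h2 h3 => IH _ h2 A' B' h1 rfl h3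
        · exact absurd (singular_case hAB h.le hreg hcard hsmall) hbad

theorem main_abs (G : SimpleGraph V) (m : ℕ) (h : ¬ Good G m ∅ univ) :
    ∃ H : SimpleGraph V, H ≤ G ∧ Good H (m + 1) ∅ univ ∧ ¬ Good H m ∅ univ :=
  main_rel G m _ ∅ univ (empty_subset _) rfl h

theorem good_iff (G : SimpleGraph V) (m : ℕ) :
    Good G m ∅ univ ↔ ∃ r : V → V → Prop, IsWellOrder V r ∧
      ∀ x : V, #{y : V // G.Adj x y ∧ r y x} < (m : Cardinal.{u}) := by
  classical
  constructor
  · rintro ⟨P, hP⟩
    have hwf := hP.wf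
    let rk : V → Ordinal.{u} := fun x => (hwf.apply x).rank
    obtain ⟨σ, hσ1, hσ2⟩ := exists_index (univ : Set V)
    have hσinj : Function.Injective σ := fun x y h => hσ2 x (mem_univ x) y (mem_univ y) h
    let F : V → Ordinal.{u} ×ₗ Ordinal.{u} := fun x => toLex (rk x, σ x)
    have hF : Function.Injective F := by
      intro x y hxy
      have : (rk x, σ x) = (rk y, σ y) := toLex.injective hxy
      exact hσinj (Prod.ext_iff.mp this).2
    let r : V → V → Prop := fun x y => F x < F y
    have hr : IsWellOrder V r := by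
      have : r = (F ⁻¹'o (· < ·)) := rfl
      rw [this]
      exact (RelEmbedding.preimage ⟨F, hF⟩ (· < ·)).isWellOrder
    refine ⟨r, hr, ?_⟩
    intro x
    have hsub : {y | G.Adj x y ∧ r y x} ⊆ P x := by
      rintro y ⟨hxy, hyx⟩
      rcases hP.adj x ⟨mem_univ x, by simp⟩ y ⟨mem_univ y, by simp⟩ hxy with h | h
      · exact h
      · exfalso
        have h1 : rk x < rk y := Acc.rank_lt_of_rel (hwf.apply y) ⟨⟨mem_univ y, by simp⟩, h⟩
        have h2 : F x < F y := by
          rw [Prod.Lex.lt_iff]; exact Or.inl h1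
        exact absurd hyx (lt_asymm h2)
    have h1 : (P x).encard < m := by
      refine lt_of_le_of_lt (encard_le_encard ?_) (hP.deg x ⟨mem_univ x, by simp⟩)
      exact subset_union_right
    have hfin : (P x).Finite := hP.finite ⟨mem_univ x, by simp⟩
    have h2 : (P x).ncard < m := by
      rw [← hfin.cast_ncard_eq] at h1
      exact_mod_cast h1
    refine lt_of_le_of_lt (mk_le_mk_of_subset hsub) ?_
    have h3 : #(P x) = ((P x).ncard : Cardinal.{u}) := (Set.cast_ncard hfin).symm
    rw [h3]
    exact_mod_cast h2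
  · rintro ⟨r, hr, h⟩
    refine ⟨fun x => {y | G.Adj x y ∧ r y x}, ?_, ?_, ?_, ?_⟩
    · intro x _ y _; exact ⟨mem_univ y, by simp⟩
    · refine Subrelation.wf ?_ hr.wf
      rintro y x ⟨_, hy⟩
      exact hy.2
    · intro x _ y _ hxy
      rcases trichotomous_of r x y with h1 | h1 | h1
      · exact Or.inr ⟨hxy.symm, h1⟩
      · exact absurd h1 hxy.ne
      · exact Or.inl ⟨hxy, h1⟩
    · intro x _
      have h1 : ({y | G.Adj x y ∧ y ∈ (∅ : Set V)} ∪ {y | G.Adj x y ∧ r y x}) =
          {y | G.Adj x y ∧ r y x} := by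
        ext y; simp
      rw [h1]
      have h2 := h x
      have hfin : ({y | G.Adj x y ∧ r y x} : Set V).Finite :=
        lt_aleph0_iff_set_finite.mp (h2.trans (natCast_lt_aleph0))
      rw [← hfin.cast_ncard_eq]
      have h3 : #({y | G.Adj x y ∧ r y x} : Set V) =
          (({y | G.Adj x y ∧ r y x} : Set V).ncard : Cardinal.{u}) := (Set.cast_ncard hfin).symm
      have h4 : ((({y | G.Adj x y ∧ r y x} : Set V).ncard : ℕ) : Cardinal.{u}) < (m : Cardinal.{u}) := by
        rw [← h3]; exact h2
      exact_mod_cast h4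

theorem coloring_set_nonempty (G : SimpleGraph V) :
    {κ : Cardinal.{u} | ∃ r : V → V → Prop, IsWellOrder V r ∧
      ∀ x : V, #{y : V // G.Adj x y ∧ r y x} < κ}.Nonempty := by
  refine ⟨Order.succ #V, WellOrderingRel, inferInstance, fun x => ?_⟩
  exact lt_of_le_of_lt (mk_subtype_le _) (Order.lt_succ _)

theorem coloringNumber_mem (G : SimpleGraph V) : ∃ r : V → V → Prop, IsWellOrder V r ∧
    ∀ x : V, #{y : V // G.Adj x y ∧ r y x} < coloringNumber G :=
  csInf_mem (coloring_set_nonempty G)

theorem coloringNumber_le_iff (G : SimpleGraph V) (m : ℕ) :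
    coloringNumber G ≤ (m : Cardinal.{u}) ↔ Good G m ∅ univ := by
  rw [good_iff]
  constructor
  · intro h
    obtain ⟨r, hr, h1⟩ := coloringNumber_mem G
    exact ⟨r, hr, fun x => (h1 x).trans_le h⟩
  · rintro ⟨r, hr, h⟩
    exact csInf_le' ⟨r, hr, h⟩

theorem coloringNumber_mono {W : Type u} {G : SimpleGraph V} {G' : SimpleGraph W} (f : V → W)
    (hf : Function.Injective f) (h : ∀ x y, G.Adj x y → G'.Adj (f x) (f y)) :
    coloringNumber G ≤ coloringNumber G' := by
  obtain ⟨r, hr, h1⟩ := coloringNumber_mem G'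
  refine csInf_le' ⟨f ⁻¹'o r, ?_, ?_⟩
  · exact (RelEmbedding.preimage ⟨f, hf⟩ r).isWellOrder
  · intro x
    refine lt_of_le_of_lt ?_ (h1 (f x))
    refine mk_le_of_injective (f := fun y => ⟨f y.1, h _ _ y.2.1, y.2.2⟩) ?_
    rintro ⟨a, ha⟩ ⟨b, hb⟩ hab
    exact Subtype.ext (hf (congrArg Subtype.val hab))

/-- Every graph has, for every natural number `n` not exceeding its colouring number, a subgraph
with colouring number exactly `n`. -/
theorem exists_subgraph_coloringNumber_eq (G : SimpleGraph V) (n : ℕ)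
    (hn : (n : Cardinal.{u}) ≤ coloringNumber G) :
    ∃ G' : G.Subgraph, coloringNumber G'.coe = n := by
  rcases n with _ | m
  · refine ⟨⊥, le_antisymm ?_ (by simp)⟩
    rw [coloringNumber_le_iff]
    refine ⟨fun _ => ∅, ?_, ?_, ?_, ?_⟩
    · rintro ⟨x, hx⟩; exact absurd hx (by simp)
    · exact ⟨fun a => ⟨a, fun y h => absurd h.2 (by simp)⟩⟩
    · rintro ⟨x, hx⟩; exact absurd hx (by simp)
    · rintro ⟨x, hx⟩; exact absurd hx (by simp)
  · have hbad : ¬ Good G m ∅ univ := by
      intro h
      have h1 := (coloringNumber_le_iff G m).mpr h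
      have h2 : ((m + 1 : ℕ) : Cardinal.{u}) ≤ (m : Cardinal.{u}) := hn.trans h1
      have h3 : m + 1 ≤ m := by exact_mod_cast h2
      omega
    obtain ⟨H, hHG, hgood, hHbad⟩ := main_abs G m hbad
    have hH1 : coloringNumber H = ((m + 1 : ℕ) : Cardinal.{u}) := by
      refine le_antisymm ((coloringNumber_le_iff H (m + 1)).mpr hgood) ?_
      have h1 : (m : Cardinal.{u}) < coloringNumber H := by
        rw [← not_le, coloringNumber_le_iff]; exact hHbad
      have h2 := Order.succ_le_of_lt h1
      rw [Cardinal.succ_natCast] at h2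
      exact_mod_cast h2
    refine ⟨SimpleGraph.toSubgraph H hHG, ?_⟩
    rw [← hH1]
    apply le_antisymm
    · refine coloringNumber_mono (fun x => x.1) Subtype.val_injective ?_
      intro x y hxy
      exact hxy
    · refine coloringNumber_mono (fun x => ⟨x, mem_univ x⟩) ?_ ?_
      · intro x y hxy
        exact congrArg Subtype.val hxy
      · intro x y hxy
        exact hxy

end Pool.Agent.Work.MP_279ba3_co
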