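import Pool.Agent.Work.MP_279ba3_co.Filtration

set_option autoImplicit false

universe u

namespace Pool.Agent.Work.MP_279ba3_co

open Cardinal Set

variable {V : Type u}

/-- an injective indexing of a set by the ordinals below the initial ordinal of its cardinality -/
theorem exists_index (D : Set V) : ∃ idx : V → Ordinal.{u}, (∀ x ∈ D, idx x < (#D).ord) ∧
    ∀ x ∈ D, ∀ y ∈ D, idx x = idx y → x = y := by
  classical
  obtain ⟨r, hr, hrt⟩ := Cardinal.exists_ord_eq D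
  refine ⟨fun x => if h : x ∈ D then Ordinal.typein r ⟨x, h⟩ else 0, ?_, ?_⟩
  · intro x hx
    simp only [hx, dif_pos]
    rw [hrt]
    exact Ordinal.typein_lt_type r _
  · intro x hx y hy hxy
    simp only [hx, hy, dif_pos] at hxy
    have := (Ordinal.typein_inj r).mp hxy
    exact congrArg Subtype.val this

/-- The inductive step at a regular uncountable cardinal. -/
theorem regular_case {G : SimpleGraph V} {m : ℕ} {A B : Set V} (hAB : A ⊆ B)
    {κ : Cardinal.{u}} (hreg : κ.IsRegular) (hκ : ℵ₀ < κ) (hcard : #(B \ A : Set V) = κ)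
    (hbad : ¬ Good G m A B)
    (IH : ∀ A' B' : Set V, A' ⊆ B' → #(B' \ A' : Set V) < κ → ¬ Good G m A' B' →
      ∃ H : SimpleGraph V, H ≤ G ∧ Good H (m + 1) A' B' ∧ ¬ Good H m A' B') :
    ∃ H : SimpleGraph V, H ≤ G ∧ Good H (m + 1) A B ∧ ¬ Good H m A B := by
  classical
  obtain ⟨idx, hidx1, hidx2⟩ := exists_index (B \ A)
  rw [hcard] at hidx1
  have hext : ∀ C : Set V, ∃ D : Set V, C ⊆ D ∧ (C ⊆ B → D ⊆ B) ∧
      (#(C \ A : Set V) < κ → #(D \ A : Set V) < κ) ∧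
      ((∃ D : Set V, C ⊆ D ∧ D ⊆ B ∧ #(D \ A : Set V) < κ ∧ ¬ Good G m C D) → ¬ Good G m C D) := by
    intro C
    by_cases h : ∃ D : Set V, C ⊆ D ∧ D ⊆ B ∧ #(D \ A : Set V) < κ ∧ ¬ Good G m C D
    · obtain ⟨D, h1, h2, h3, h4⟩ := h
      exact ⟨D, h1, fun _ => h2, fun _ => h3, fun _ => h4⟩
    · exact ⟨C, subset_rfl, id, id, fun h' => absurd h' h⟩
  choose ext hext1 hext2 hext3 hext4 using hext
  let E : Ordinal.{u} → Set V → Set V := fun j C => ext C ∪ {x | x ∈ B \ A ∧ idx x = j}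
  let Bf : Ordinal.{u} → Set V := filt A E
  have hlim : Order.IsSuccLimit κ.ord := isSuccLimit_ord hreg.aleph0_le
  have hABf : ∀ i, A ⊆ Bf i := fun i => base_subset_filt i
  have hBfmono : ∀ i j, i ≤ j → Bf i ⊆ Bf j := fun i j h => filt_mono h
  have hBfB : ∀ i, Bf i ⊆ B := by
    refine filt_subset hAB ?_
    intro j C _ hCB
    exact union_subset (hext2 C hCB) (fun x hx => hx.1.1)
  have hBfcard : ∀ i < κ.ord, #(Bf i \ A : Set V) < κ := by
    intro i hi
    refine (filt_card (B := B) hreg hAB (A₀ := A) ?_ ?_ i hi).2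
    · rw [sdiff_self]; simpa using hreg.pos
    · intro j C hAC hCB hC
      refine ⟨union_subset (hext2 C hCB) (fun x hx => hx.1.1), ?_⟩
      have hsub : (ext C ∪ {x | x ∈ B \ A ∧ idx x = j}) \ A ⊆
          (ext C \ A) ∪ {x | x ∈ B \ A ∧ idx x = j} := by
        rintro x ⟨hx | hx, hxA⟩
        · exact Or.inl ⟨hx, hxA⟩
        · exact Or.inr hx
      refine lt_of_le_of_lt ((mk_le_mk_of_subset hsub).trans (mk_union_le _ _)) ?_
      refine add_lt_of_lt hreg.aleph0_le (hext3 C hC) ?_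
      refine lt_of_le_of_lt ?_ hκ
      refine (lt_aleph0_iff_set_finite.mpr ?_).le
      refine Set.Subsingleton.finite ?_
      intro x hx y hy
      exact hidx2 x hx.1 y hy.1 (hx.2.trans hy.2.symm)
  let lv : V → Ordinal.{u} := lev A E
  have hin : ∀ x ∈ B \ A, x ∈ E (idx x) (filt A E (idx x)) := fun x hx => Or.inr ⟨hx, rfl⟩
  have hlv : ∀ x ∈ B \ A, ∀ i, lv x < i ↔ x ∈ Bf i := fun x hx i =>
    lev_lt_iff hx.2 ⟨idx x, hin x hx⟩ i
  have hlvκ : ∀ x ∈ B \ A, lv x < κ.ord := by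
    intro x hx
    refine lt_of_le_of_lt (csInf_le' ?_) (hidx1 x hx)
    exact hin x hx
  have hBfeq : ∀ i, A ∪ {y | y ∈ B ∧ lv y < i} = Bf i := by
    intro i
    ext y
    constructor
    · rintro (hy | ⟨hyB, hy⟩)
      · exact hABf i hy
      · by_cases hyA : y ∈ A
        · exact hABf i hyA
        · exact (hlv y ⟨hyB, hyA⟩ i).mp hy
    · intro hy
      by_cases hyA : y ∈ A
      · exact Or.inl hyA
      · exact Or.inr ⟨hBfB i hy, (hlv y ⟨hBfB i hy, hyA⟩ i).mpr hy⟩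
  have hBfeq' : ∀ i, A ∪ {y | y ∈ B ∧ lv y ≤ i} = Bf (i + 1) := by
    intro i
    rw [← hBfeq (i + 1)]
    simp only [Order.lt_add_one_iff]
  have hle1 : ∀ i : Ordinal.{u}, Bf i ⊆ Bf (i + 1) := fun i => hBfmono i (i + 1) (lt_add_one i).le
  have hHex : ∀ i : Ordinal.{u}, ∃ H : SimpleGraph V, H ≤ G ∧ Good H (m + 1) (Bf i) (Bf (i + 1)) ∧
      (i < κ.ord → ¬ Good G m (Bf i) (Bf (i + 1)) → ¬ Good H m (Bf i) (Bf (i + 1))) := by
    intro i
    by_cases h : i < κ.ord ∧ ¬ Good G m (Bf i) (Bf (i + 1))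
    · have hc : #(Bf (i + 1) \ Bf i : Set V) < κ := by
        refine lt_of_le_of_lt (mk_le_mk_of_subset ?_) (hBfcard (i + 1) (hlim.succ_lt h.1))
        exact sdiff_subset_sdiff_right (hABf i)
      obtain ⟨H, h1, h2, h3⟩ := IH (Bf i) (Bf (i + 1)) (hle1 i) hc h.2
      exact ⟨H, h1, h2, fun _ _ => h3⟩
    · refine ⟨⊥, bot_le, good_of_noEdge (hle1 i) ?_, fun h1 h2 => absurd ⟨h1, h2⟩ h⟩
      intro x _ y _ hxy
      simp at hxy
  choose Hs hHle hHgood hHbad using hHex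
  let H := glue Hs Bf (fun i => Bf (i + 1))
  have hPQ : ∀ i j : Ordinal.{u}, i < j → Bf (i + 1) ⊆ Bf j := fun i j hij =>
    hBfmono (i + 1) j (Order.add_one_le_of_lt hij)
  have hiff := glue_good_iff (H := Hs) (P := Bf) (Q := fun i => Bf (i + 1)) hPQ hle1
  refine ⟨H, glue_le hHle, ?_, ?_⟩
  · refine good_concat lv ?_
    intro x _
    rw [hBfeq, hBfeq']
    exact (hiff (lv x) (m + 1)).mpr (hHgood (lv x))
  · rintro ⟨P, hP⟩
    apply hbad
    let C : Set Ordinal.{u} := {i | i < κ.ord ∧ ∀ x ∈ B \ A, lv x < i → ∀ y ∈ P x, lv y < i}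
    have h0C : (0 : Ordinal.{u}) ∈ C := by
      refine ⟨hreg.ord_pos, ?_⟩
      intro x _ hx
      exact absurd hx (by simp)
    have hfree : ∀ i ∈ C, ∀ D, Bf i ⊆ D → D ⊆ B → #(D \ A : Set V) < κ → Good G m (Bf i) D := by
      rintro i ⟨hiκ, hi⟩ D hD1 hD2 hD3
      have g1 : Good H m (Bf i) B := by
        refine hP.good_of_closed (hABf i) (hBfB i) ?_
        rintro x ⟨hx, hxA⟩ y hy
        have hxBA : x ∈ B \ A := ⟨hBfB i hx, hxA⟩
        exact (hlv y (hP.sub x hxBA hy) i).mp (hi x hxBA ((hlv x hxBA i).mpr hx) y hy)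
      have g2 : Good H m (Bf i) (Bf (i + 1)) := g1.mono_right (hle1 i) (hBfB _)
      have g3 : Good G m (Bf i) (Bf (i + 1)) := by
        by_contra hb
        exact hHbad i hiκ hb ((hiff i m).mp g2)
      by_contra hb
      have h4 := hext4 (Bf i) ⟨D, hD1, hD2, hD3, hb⟩
      refine h4 (g3.mono_right (hext1 (Bf i)) ?_)
      have h5 : E i (filt A E i) ⊆ filt A E (i + 1) := E_subset_filt (lt_add_one i)
      exact (subset_union_left : ext (Bf i) ⊆ ext (Bf i) ∪ {x | x ∈ B \ A ∧ idx x = i}).trans h5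
    let g : V → Ordinal.{u} := fun x => sSup {i | i ∈ C ∧ i ≤ lv x}
    have hbdd : ∀ x, BddAbove {i | i ∈ C ∧ i ≤ lv x} := fun x => ⟨lv x, fun i hi => hi.2⟩
    have hne : ∀ x, {i | i ∈ C ∧ i ≤ lv x}.Nonempty := fun x => ⟨0, h0C, bot_le⟩
    have hgle : ∀ x, g x ≤ lv x := fun x => csSup_le (hne x) fun i hi => hi.2
    have hgC : ∀ x ∈ B \ A, g x ∈ C := by
      intro x hx
      refine ⟨(hgle x).trans_lt (hlvκ x hx), ?_⟩
      intro x' hx' hlt y hy
      obtain ⟨i, hi, hlt'⟩ := exists_lt_of_lt_csSup (hne x) hlt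
      exact (hi.1.2 x' hx' hlt' y hy).trans_le (le_csSup (hbdd x) hi)
    have hgiff : ∀ i ∈ C, ∀ y, g y < i ↔ lv y < i := by
      intro i hi y
      constructor
      · intro h
        by_contra hcon
        exact absurd (le_csSup (hbdd y) ⟨hi, not_lt.mp hcon⟩) (not_le.mpr h)
      · exact fun h => (hgle y).trans_lt h
    refine good_concat g ?_
    intro x hx
    have hiC := hgC x hx
    have e1 : A ∪ {y | y ∈ B ∧ g y < g x} = Bf (g x) := by
      rw [← hBfeq]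
      congr 1
      ext y
      simp only [mem_ofPred_eq, hgiff _ hiC]
    rw [e1]
    obtain ⟨i', hi1, hi2, hi3⟩ := exists_closure_point hreg hκ (B \ A) lv P hlvκ (by
      intro i hi
      refine lt_of_le_of_lt (mk_le_mk_of_subset ?_) (hBfcard i hi)
      rintro y ⟨hy, hyi⟩
      exact ⟨(hlv y hy i).mp hyi, hy.2⟩) (fun x hx => hP.finite hx) hP.sub (g x) hiC.1
    have hi'C : i' ∈ C := ⟨hi2, hi3⟩
    have hsub : A ∪ {y | y ∈ B ∧ g y ≤ g x} ⊆ Bf i' := by
      rw [← hBfeq]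
      rintro y (hy | ⟨hy1, hy2⟩)
      · exact Or.inl hy
      · exact Or.inr ⟨hy1, (hgiff i' hi'C y).mp (hy2.trans_lt hi1)⟩
    refine hfree (g x) hiC _ ?_ (hsub.trans (hBfB i')) ?_
    · rw [← e1]
      rintro y (hy | ⟨hy1, hy2⟩)
      · exact Or.inl hy
      · exact Or.inr ⟨hy1, hy2.le⟩
    · exact lt_of_le_of_lt (mk_le_mk_of_subset (sdiff_subset_sdiff_left hsub)) (hBfcard i' hi2)

end Pool.Agent.Work.MP_279ba3_co
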