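import Pool.Agent.Work.MP_279ba3_co.RegularCase

set_option autoImplicit false

universe u

namespace Pool.Agent.Work.MP_279ba3_co

open Cardinal Set

variable {V : Type u}

/-- every small set is contained in a free set of the same size -/
theorem free_hull {G : SimpleGraph V} {m : ℕ} {A B : Set V}
    {κ : Cardinal.{u}}
    (hsmall : ∀ C, A ⊆ C → C ⊆ B → #(C \ A : Set V) < κ → Good G m A C)
    {ν : Cardinal.{u}} (hν : ℵ₀ ≤ ν) (hνκ : Order.succ ν < κ)
    (X : Set V) (hAX : A ⊆ X) (hXB : X ⊆ B) (hX : #(X \ A : Set V) ≤ ν) :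
    ∃ Y, X ⊆ Y ∧ Y ⊆ B ∧ #(Y \ A : Set V) ≤ ν ∧
      ∀ D, Y ⊆ D → D ⊆ B → #(D \ A : Set V) < κ → Good G m Y D := by
  classical
  by_contra hno
  push Not at hno
  have step1 : ∀ Y, X ⊆ Y → Y ⊆ B → #(Y \ A : Set V) ≤ ν →
      ∃ D, Y ⊆ D ∧ D ⊆ B ∧ #(D \ A : Set V) ≤ ν ∧ ¬ Good G m Y D := by
    intro Y hXY hYB hY
    obtain ⟨D, hYD, hDB, hD, hbad⟩ := hno Y hXY hYB hY
    obtain ⟨P, hP⟩ := hsmall D ((hAX.trans hXY).trans hYD) hDB hD
    have hAD : A ⊆ D := (hAX.trans hXY).trans hYD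
    refine ⟨cl A D P Y, subset_cl, (hP.cl_subset hAD hYD).trans hDB, hP.cl_card hν hY, ?_⟩
    intro hg
    have h2 : Good G m (cl A D P Y) D :=
      hP.good_of_closed left_subset_cl (hP.cl_subset hAD hYD) (hP.cl_closed hAD hYD)
    exact hbad (hg.trans subset_cl (hP.cl_subset hAD hYD) h2)
  set κ' := Order.succ ν with hκ'
  have hreg : κ'.IsRegular := isRegular_succ hν
  have hκ0 : ℵ₀ < κ' := lt_of_le_of_lt hν (Order.lt_succ ν)
  have hext : ∀ C : Set V, ∃ D : Set V, C ⊆ D ∧ (X ⊆ C → C ⊆ B → #(C \ A : Set V) < κ' →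
      D ⊆ B ∧ #(D \ A : Set V) < κ' ∧ ¬ Good G m C D) := by
    intro C
    by_cases h : X ⊆ C ∧ C ⊆ B ∧ #(C \ A : Set V) < κ'
    · obtain ⟨D, h1, h2, h3, h4⟩ := step1 C h.1 h.2.1 (Order.lt_succ_iff.mp h.2.2)
      exact ⟨D, h1, fun _ _ _ => ⟨h2, Order.lt_succ_iff.mpr h3, h4⟩⟩
    · exact ⟨C, subset_rfl, fun h1 h2 h3 => absurd ⟨h1, h2, h3⟩ h⟩
  choose ext hext1 hext2 using hext
  let E : Ordinal.{u} → Set V → Set V := fun _ C => ext C
  have hfilt := fun i hi => filt_card (A := X) (A₀ := A) (B := B) (E := E) hreg hXB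
    (Order.lt_succ_iff.mpr hX) (fun j C h1 h2 h3 => ⟨(hext2 C h1 h2 h3).1, (hext2 C h1 h2 h3).2.1⟩)
    i hi
  have hlim : Order.IsSuccLimit κ'.ord := isSuccLimit_ord hreg.aleph0_le
  set U := filt X E κ'.ord with hU
  have hUB : U ⊆ B := by
    intro x hx
    rw [hU, mem_filt] at hx
    rcases hx with hx | ⟨j, hj, hx⟩
    · exact hXB hx
    · obtain ⟨h2, h3⟩ := hfilt j hj
      exact (hext2 _ (base_subset_filt j) h2 h3).1 hx
  have hUcard : #(U \ A : Set V) ≤ κ' := by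
    have hsub : U \ A ⊆ (X \ A) ∪
        ⋃ t : κ'.ord.ToType, (E (Ordinal.ToType.mk.symm t).1 (filt X E (Ordinal.ToType.mk.symm t).1) \ A) := by
      rintro x ⟨hx, hxA⟩
      rw [hU, mem_filt] at hx
      rcases hx with hx | ⟨k, hk, hx⟩
      · exact Or.inl ⟨hx, hxA⟩
      · refine Or.inr (mem_iUnion.mpr ⟨Ordinal.ToType.mk ⟨k, hk⟩, ?_⟩)
        simp only [OrderIso.symm_apply_apply]
        exact ⟨hx, hxA⟩
    refine (mk_le_mk_of_subset hsub).trans ((mk_union_le _ _).trans ?_)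
    refine add_le_of_le hκ0.le (hX.trans (Order.le_succ ν)) ?_
    refine (mk_iUnion_le _).trans ?_
    rw [mk_ord_toType]
    refine mul_le_of_le hκ0.le le_rfl (ciSup_le' fun t => ?_)
    have ht : (Ordinal.ToType.mk.symm t).1 < κ'.ord := (Ordinal.ToType.mk.symm t).2
    obtain ⟨h2, h3⟩ := hfilt _ ht
    exact (hext2 _ (base_subset_filt _) h2 h3).2.1.le
  have hXU : X ⊆ U := base_subset_filt _
  obtain ⟨P, hP⟩ := hsmall U (hAX.trans hXU) hUB (hUcard.trans_lt hνκ)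
  let f : V → Ordinal.{u} := fun x => if x ∈ X then 0 else lev X E x
  have hf : ∀ x ∈ U \ A, ∀ i, 0 < i → (f x < i ↔ x ∈ filt X E i) := by
    intro x hx i hi
    by_cases hxX : x ∈ X
    · simp only [f, hxX, if_true, hi, true_iff]
      exact base_subset_filt i hxX
    · simp only [f, hxX, if_false]
      refine lev_lt_iff hxX ?_ i
      have := hx.1
      rw [hU, mem_filt] at this
      rcases this with h | ⟨j, _, h⟩
      · exact absurd h hxX
      · exact ⟨j, h⟩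
  have h0 : (0 : Ordinal.{u}) < κ'.ord := hreg.ord_pos
  have h1 : (1 : Ordinal.{u}) < κ'.ord := by
    have := hlim.succ_lt h0
    simpa using this
  obtain ⟨i', hi1, hi2, hi3⟩ := exists_closure_point hreg hκ0 (U \ A) f P
    (fun x hx => (hf x hx _ h0).mpr hx.1)
    (by
      intro i hi
      refine lt_of_le_of_lt (mk_le_mk_of_subset ?_) (hfilt (max i 1) (max_lt hi h1)).2
      rintro y ⟨hy, hyi⟩
      exact ⟨(hf y hy (max i 1) (lt_max_of_lt_right zero_lt_one)).mp (hyi.trans_le (le_max_left _ _)), hy.2⟩)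
    (fun x hx => hP.finite hx) hP.sub 0 h0
  obtain ⟨g2, g3⟩ := hfilt i' hi2
  have hFU : filt X E i' ⊆ U := filt_mono hi2.le
  have g4 : Good G m (filt X E i') U := by
    refine hP.good_of_closed (hAX.trans (base_subset_filt i')) hFU ?_
    rintro x ⟨hx, hxA⟩ y hy
    have hxU : x ∈ U \ A := ⟨hFU hx, hxA⟩
    exact (hf y (hP.sub x hxU hy) i' hi1).mp (hi3 x hxU ((hf x hxU i' hi1).mpr hx) y hy)
  have g5 := (hext2 _ (base_subset_filt i') g2 g3).2.2
  exact g5 (g4.mono_right (hext1 _) (E_subset_filt (E := E) hi2))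

/-- extending witnesses -/
theorem wit_extend {G : SimpleGraph V} {m : ℕ} {A W W' : Set V} {P Q : V → Set V}
    [DecidablePred (· ∈ W)] (hAW : A ⊆ W) (hWW' : W ⊆ W') (h1 : Wit G m A W P)
    (h2 : Wit G m W W' Q) :
    Wit G m A W' (fun x => if x ∈ W then P x else {y | y ∈ W \ A ∧ G.Adj x y} ∪ Q x) := by
  refine ⟨?_, ?_, ?_, ?_⟩
  · intro x hx y hy
    by_cases hxW : x ∈ W
    · simp only [hxW, if_true] at hy
      have := h1.sub x ⟨hxW, hx.2⟩ hy
      exact ⟨hWW' this.1, this.2⟩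
    · simp only [hxW, if_false] at hy
      rcases hy with hy | hy
      · exact ⟨hWW' hy.1.1, hy.1.2⟩
      · have := h2.sub x ⟨hx.1, hxW⟩ hy
        exact ⟨this.1, fun h => this.2 (hAW h)⟩
  · have hW : ∀ x ∈ W, Acc (fun y x => x ∈ W' \ A ∧
        y ∈ (if x ∈ W then P x else {y | y ∈ W \ A ∧ G.Adj x y} ∪ Q x)) x := by
      intro x hx
      induction x using h1.wf.induction with
      | _ x IH =>
        refine ⟨x, ?_⟩
        rintro y ⟨hx', hy⟩
        simp only [hx, if_true] at hy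
        exact IH y ⟨⟨hx, hx'.2⟩, hy⟩ (h1.sub x ⟨hx, hx'.2⟩ hy).1
    refine ⟨fun x => ?_⟩
    induction x using h2.wf.induction with
    | _ x IH =>
      by_cases hxW : x ∈ W
      · exact hW x hxW
      · refine ⟨x, ?_⟩
        rintro y ⟨hx', hy⟩
        simp only [hxW, if_false] at hy
        rcases hy with hy | hy
        · exact hW y hy.1.1
        · exact IH y ⟨⟨hx'.1, hxW⟩, hy⟩
  · intro x hx y hy hxy
    by_cases hxW : x ∈ W
    · by_cases hyW : y ∈ W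
      · simp only [hxW, hyW, if_true]
        exact h1.adj x ⟨hxW, hx.2⟩ y ⟨hyW, hy.2⟩ hxy
      · right
        simp only [hyW, if_false]
        exact Or.inl ⟨⟨hxW, hx.2⟩, hxy.symm⟩
    · by_cases hyW : y ∈ W
      · left
        simp only [hxW, if_false]
        exact Or.inl ⟨⟨hyW, hy.2⟩, hxy⟩
      · simp only [hxW, hyW, if_false]
        rcases h2.adj x ⟨hx.1, hxW⟩ y ⟨hy.1, hyW⟩ hxy with h | h
        · exact Or.inl (Or.inr h)
        · exact Or.inr (Or.inr h)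
  · intro x hx
    by_cases hxW : x ∈ W
    · simp only [hxW, if_true]
      exact h1.deg x ⟨hxW, hx.2⟩
    · simp only [hxW, if_false]
      refine lt_of_le_of_lt (encard_le_encard ?_) (h2.deg x ⟨hx.1, hxW⟩)
      rintro y (⟨h3, h4⟩ | h3 | h3)
      · exact Or.inl ⟨h3, hAW h4⟩
      · exact Or.inl ⟨h3.2, h3.1.1⟩
      · exact Or.inr h3

/-- unions of increasing sequences of witnesses -/
theorem wit_iUnion {G : SimpleGraph V} {m : ℕ} {A : Set V} (W : ℕ → Set V) (P : ℕ → V → Set V)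
    (hmono : ∀ n, W n ⊆ W (n + 1)) (hP : ∀ n, ∀ x ∈ W n, P (n + 1) x = P n x)
    (h : ∀ n, Wit G m A (W n) (P n)) :
    (∀ n, ∀ x ∈ W n, (⋃ k, {y | x ∈ W k ∧ y ∈ P k x}) = P n x) ∧
    Wit G m A (⋃ n, W n) (fun x => ⋃ k, {y | x ∈ W k ∧ y ∈ P k x}) := by
  have hm : Monotone W := monotone_nat_of_le_succ hmono
  have hPk : ∀ n k, ∀ x ∈ W n, P (n + k) x = P n x := by
    intro n k x hx
    induction k with
    | zero => rfl
    | succ k IH => rw [← add_assoc, hP (n + k) x (hm (Nat.le_add_right n k) hx), IH]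
  have hPeq : ∀ n k, ∀ x, x ∈ W n → x ∈ W k → P n x = P k x := by
    intro n k x h1 h2
    rcases le_total n k with h | h
    · obtain ⟨j, rfl⟩ := Nat.exists_eq_add_of_le h
      exact (hPk n j x h1).symm
    · obtain ⟨j, rfl⟩ := Nat.exists_eq_add_of_le h
      exact hPk k j x h2
  have hPU : ∀ n, ∀ x ∈ W n, (⋃ k, {y | x ∈ W k ∧ y ∈ P k x}) = P n x := by
    intro n x hx
    ext y
    simp only [mem_iUnion, mem_ofPred_eq]
    constructor
    · rintro ⟨k, hk, hy⟩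
      rwa [hPeq n k x hx hk]
    · intro hy
      exact ⟨n, hx, hy⟩
  have hex : ∀ x, x ∈ (⋃ n, W n) \ A → ∃ n, x ∈ W n \ A := by
    rintro x ⟨hx, hxA⟩
    obtain ⟨n, hn⟩ := mem_iUnion.mp hx
    exact ⟨n, hn, hxA⟩
  refine ⟨hPU, ?_, ?_, ?_, ?_⟩
  · intro x hx
    obtain ⟨n, hn⟩ := hex x hx
    show (⋃ k, {y | x ∈ W k ∧ y ∈ P k x}) ⊆ _
    rw [hPU n x hn.1]
    intro y hy
    have := (h n).sub x hn hy
    exact ⟨mem_iUnion.mpr ⟨n, this.1⟩, this.2⟩
  · refine ⟨fun x => ?_⟩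
    by_cases hx : x ∈ (⋃ n, W n) \ A
    · obtain ⟨n, hn⟩ := hex x hx
      induction x using (h n).wf.induction with
      | _ x IH =>
        refine ⟨x, ?_⟩
        rintro y ⟨_, hy⟩
        have hy' : y ∈ P n x := by
          have h3 := hPU n x hn.1
          rw [← h3]; exact hy
        have h4 := (h n).sub x hn hy'
        exact IH y ⟨hn, hy'⟩ ⟨mem_iUnion.mpr ⟨n, h4.1⟩, h4.2⟩ h4
    · exact ⟨x, fun y hy => absurd hy.1 hx⟩
  · intro x hx y hy hxy
    obtain ⟨n, hn⟩ := hex x hx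
    obtain ⟨k, hk⟩ := hex y hy
    have h1 : x ∈ W (max n k) := hm (le_max_left _ _) hn.1
    have h2 : y ∈ W (max n k) := hm (le_max_right _ _) hk.1
    show y ∈ (⋃ k, {z | x ∈ W k ∧ z ∈ P k x}) ∨ x ∈ (⋃ k, {z | y ∈ W k ∧ z ∈ P k y})
    rw [hPU _ x h1, hPU _ y h2]
    exact (h _).adj x ⟨h1, hx.2⟩ y ⟨h2, hy.2⟩ hxy
  · intro x hx
    obtain ⟨n, hn⟩ := hex x hx
    show ({y | G.Adj x y ∧ y ∈ A} ∪ (⋃ k, {y | x ∈ W k ∧ y ∈ P k x})).encard < m
    rw [hPU n x hn.1]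
    exact (h n).deg x hn

/-- Singular compactness for the relative colouring number. -/
theorem singular_case {G : SimpleGraph V} {m : ℕ} {A B : Set V} (hAB : A ⊆ B)
    {κ : Cardinal.{u}} (hκ : ℵ₀ ≤ κ) (hsing : ¬ κ.IsRegular) (hcard : #(B \ A : Set V) = κ)
    (hsmall : ∀ C, A ⊆ C → C ⊆ B → #(C \ A : Set V) < κ → Good G m A C) :
    Good G m A B := by
  classical
  -- cofinal family of cardinals
  have hcof : κ.ord.cof < κ := by
    by_contra h
    exact hsing ⟨hκ, not_lt.mp h⟩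
  have hlimit : ∀ c < κ, Order.succ c < κ := by
    intro c hc
    rcases lt_or_ge c ℵ₀ with h | h
    · refine lt_of_lt_of_le ?_ hκ
      exact isSuccLimit_aleph0.succ_lt h
    · refine lt_of_le_of_ne (Order.succ_le_of_lt hc) ?_
      intro he
      exact hsing (he ▸ isRegular_succ h)
  have hκ0 : ℵ₀ < κ := by
    refine lt_of_le_of_ne hκ ?_
    intro h
    exact hsing (h ▸ isRegular_aleph0)
  obtain ⟨ι, hιcof, hιcard⟩ := Order.exists_cof_eq (α := κ.ord.ToType)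
  rw [Ordinal.cof_toType] at hιcard
  let lam : ι → Cardinal.{u} := fun t => max (Ordinal.ToType.mk.symm t.1).1.card (max #ι ℵ₀)
  have hlamκ : ∀ t, lam t < κ := by
    intro t
    refine max_lt ?_ (max_lt (by rw [hιcard]; exact hcof) hκ0)
    have : (Ordinal.ToType.mk.symm t.1).1 < κ.ord := (Ordinal.ToType.mk.symm t.1).2
    exact lt_ord.mp this
  have hlamcof : ∀ c < κ, ∃ t, c ≤ lam t := by
    intro c hc
    have hc' : c.ord < κ.ord := ord_lt_ord.mpr hc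
    obtain ⟨t, ht, hle⟩ := hιcof (Ordinal.ToType.mk ⟨c.ord, hc'⟩)
    refine ⟨⟨t, ht⟩, le_trans ?_ (le_max_left _ _)⟩
    have h1 : (⟨c.ord, hc'⟩ : Iio κ.ord) ≤ Ordinal.ToType.mk.symm t := by
      rw [OrderIso.le_symm_apply]; exact hle
    have h2 : c.ord ≤ (Ordinal.ToType.mk.symm t).1 := h1
    have h3 := Ordinal.card_le_card h2
    rwa [card_ord] at h3
  have hlamι : ∀ t, #ι ≤ lam t := fun t => (le_max_left _ _).trans (le_max_right _ _)
  have hlam0 : ∀ t, ℵ₀ ≤ lam t := fun t => (le_max_right _ _).trans (le_max_right _ _)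
  -- enumeration
  obtain ⟨idx, hidx1, hidx2⟩ := exists_index (B \ A)
  rw [hcard] at hidx1
  let K : Set Cardinal.{u} := range lam
  -- invariants and steps
  let Inv : (Cardinal.{u} → Set V) × (Cardinal.{u} → V → Set V) → Prop := fun s =>
    ∀ c ∈ K, A ⊆ s.1 c ∧ s.1 c ⊆ B ∧ #(s.1 c \ A : Set V) ≤ c ∧
      (∀ D, s.1 c ⊆ D → D ⊆ B → #(D \ A : Set V) < κ → Good G m (s.1 c) D) ∧
      Wit G m A (s.1 c) (s.2 c)
  let Step : (Cardinal.{u} → Set V) × (Cardinal.{u} → V → Set V) →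
      (Cardinal.{u} → Set V) × (Cardinal.{u} → V → Set V) → Prop := fun s s' =>
    ∀ c ∈ K, s.1 c ⊆ s'.1 c ∧ (∀ x ∈ s.1 c, s'.2 c x = s.2 c x) ∧
      (∀ d ∈ K, d < c → s.1 d ⊆ s'.1 c) ∧
      (∀ d ∈ K, ∀ x ∈ (s.1 c ∩ s.1 d) \ A, s.2 d x ⊆ s'.1 c)
  have hstep : ∀ s, Inv s → ∃ s', Inv s' ∧ Step s s' := by
    intro s hs
    have hc : ∀ c : Cardinal.{u}, ∃ (W' : Set V) (P' : V → Set V), c ∈ K →
        (A ⊆ W' ∧ W' ⊆ B ∧ #(W' \ A : Set V) ≤ c ∧
          (∀ D, W' ⊆ D → D ⊆ B → #(D \ A : Set V) < κ → Good G m W' D) ∧ Wit G m A W' P') ∧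
        (s.1 c ⊆ W' ∧ (∀ x ∈ s.1 c, P' x = s.2 c x) ∧ (∀ d ∈ K, d < c → s.1 d ⊆ W') ∧
          (∀ d ∈ K, ∀ x ∈ (s.1 c ∩ s.1 d) \ A, s.2 d x ⊆ W')) := by
      intro c
      by_cases hcK : c ∈ K
      · obtain ⟨t₀, ht₀⟩ := hcK
        have hcι : #ι ≤ c := ht₀ ▸ hlamι t₀
        have hc0 : ℵ₀ ≤ c := ht₀ ▸ hlam0 t₀
        have hcκ : c < κ := ht₀ ▸ hlamκ t₀
        obtain ⟨hA, hB, hle, hfree, hwit⟩ := hs c ⟨t₀, ht₀⟩
        let X : Set V := s.1 c ∪ (⋃ t : ι, {y | lam t < c ∧ y ∈ s.1 (lam t)}) ∪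
          (⋃ t : ι, ⋃ x ∈ (s.1 c ∩ s.1 (lam t)) \ A, s.2 (lam t) x)
        have hXB : X ⊆ B := by
          rintro x ((hx | hx) | hx)
          · exact hB hx
          · obtain ⟨t, _, ht⟩ := mem_iUnion.mp hx
            exact (hs (lam t) ⟨t, rfl⟩).2.1 ht
          · simp only [mem_iUnion] at hx
            obtain ⟨t, z, hz, hx⟩ := hx
            obtain ⟨_, hB', _, _, hwit'⟩ := hs (lam t) ⟨t, rfl⟩
            exact hB' (hwit'.sub z ⟨hz.1.2, hz.2⟩ hx).1
        have hXcard : #(X \ A : Set V) ≤ c := by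
          have hsub : X \ A ⊆ ((s.1 c \ A) ∪ (⋃ t : ι, {y | lam t < c ∧ y ∈ s.1 (lam t) \ A})) ∪
              (⋃ t : ι, ⋃ x ∈ (s.1 c ∩ s.1 (lam t)) \ A, s.2 (lam t) x) := by
            rintro x ⟨(hx | hx) | hx, hxA⟩
            · exact Or.inl (Or.inl ⟨hx, hxA⟩)
            · obtain ⟨t, h1, ht⟩ := mem_iUnion.mp hx
              exact Or.inl (Or.inr (mem_iUnion.mpr ⟨t, h1, ht, hxA⟩))
            · exact Or.inr hx
          refine (mk_le_mk_of_subset hsub).trans ((mk_union_le _ _).trans ?_)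
          refine add_le_of_le hc0 ((mk_union_le _ _).trans (add_le_of_le hc0 hle ?_)) ?_
          · refine (mk_iUnion_le _).trans (mul_le_of_le hc0 hcι (ciSup_le' fun t => ?_))
            by_cases h : lam t < c
            · refine (mk_le_mk_of_subset ?_).trans ((hs (lam t) ⟨t, rfl⟩).2.2.1.trans h.le)
              rintro y ⟨_, hy⟩
              exact hy
            · have : {y | lam t < c ∧ y ∈ s.1 (lam t) \ A} = (∅ : Set V) := by
                ext y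
                simp only [mem_ofPred_eq, mem_empty_iff_false, iff_false, not_and]
                intro h'; exact absurd h' h
              rw [this]; simp
          · refine (mk_iUnion_le _).trans (mul_le_of_le hc0 hcι (ciSup_le' fun t => ?_))
            refine (mk_biUnion_le _ _).trans (mul_le_of_le hc0 ?_ (ciSup_le' fun x => ?_))
            · refine (mk_le_mk_of_subset ?_).trans hle
              rintro y ⟨hy, hyA⟩
              exact ⟨hy.1, hyA⟩
            · refine le_trans ?_ hc0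
              refine (lt_aleph0_iff_set_finite.mpr ?_).le
              exact (hs (lam t) ⟨t, rfl⟩).2.2.2.2.finite ⟨x.2.1.2, x.2.2⟩
        have hAX : A ⊆ X := fun x hx => Or.inl (Or.inl (hA hx))
        obtain ⟨Y, hXY, hYB, hYcard, hYfree⟩ :=
          free_hull hsmall hc0 (hlimit c hcκ) X hAX hXB hXcard
        have hcX : s.1 c ⊆ X := fun x hx => Or.inl (Or.inl hx)
        obtain ⟨Q, hQ⟩ := hfree Y (hcX.trans hXY) hYB (hYcard.trans_lt hcκ)
        refine ⟨Y, _, fun _ => ⟨⟨hAX.trans hXY, hYB, hYcard, hYfree,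
          wit_extend hA (hcX.trans hXY) hwit hQ⟩, hcX.trans hXY, ?_, ?_, ?_⟩⟩
        · intro x hx
          simp only [hx, if_true]
        · rintro d ⟨t, rfl⟩ hdc x hx
          exact hXY (Or.inl (Or.inr (mem_iUnion.mpr ⟨t, hdc, hx⟩)))
        · rintro d ⟨t, rfl⟩ x hx y hy
          refine hXY (Or.inr ?_)
          simp only [mem_iUnion]
          exact ⟨t, x, hx, hy⟩
      · exact ⟨∅, fun _ => ∅, fun h => absurd h hcK⟩
    choose W' P' hWP using hc
    exact ⟨(W', P'), fun c hc => (hWP c hc).1, fun c hc => (hWP c hc).2⟩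
  -- initial state
  have hinit : ∃ s, Inv s ∧ ∀ c ∈ K, {x | x ∈ B \ A ∧ idx x < c.ord} ⊆ s.1 c := by
    have hc : ∀ c : Cardinal.{u}, ∃ (W' : Set V) (P' : V → Set V), c ∈ K →
        (A ⊆ W' ∧ W' ⊆ B ∧ #(W' \ A : Set V) ≤ c ∧
          (∀ D, W' ⊆ D → D ⊆ B → #(D \ A : Set V) < κ → Good G m W' D) ∧ Wit G m A W' P') ∧
        {x | x ∈ B \ A ∧ idx x < c.ord} ⊆ W' := by
      intro c
      by_cases hcK : c ∈ K
      · obtain ⟨t₀, ht₀⟩ := hcK
        have hc0 : ℵ₀ ≤ c := ht₀ ▸ hlam0 t₀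
        have hcκ : c < κ := ht₀ ▸ hlamκ t₀
        let X : Set V := A ∪ {x | x ∈ B \ A ∧ idx x < c.ord}
        have hXB : X ⊆ B := union_subset hAB (fun x hx => hx.1.1)
        have hXcard : #(X \ A : Set V) ≤ c := by
          have hsub : X \ A ⊆ {x | x ∈ B \ A ∧ idx x < c.ord} := by
            rintro x ⟨hx | hx, hxA⟩
            · exact absurd hx hxA
            · exact hx
          refine (mk_le_mk_of_subset hsub).trans ?_
          have hinj : Function.Injective (fun x : {x | x ∈ B \ A ∧ idx x < c.ord} =>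
              Ordinal.ToType.mk (⟨idx x.1, x.2.2⟩ : Iio c.ord)) := by
            rintro ⟨x, hx⟩ ⟨y, hy⟩ hxy
            have h1 := Ordinal.ToType.mk.injective hxy
            have h2 : idx x = idx y := congrArg Subtype.val h1
            exact Subtype.ext (hidx2 x hx.1 y hy.1 h2)
          have := mk_le_of_injective hinj
          rwa [mk_ord_toType] at this
        obtain ⟨Y, hXY, hYB, hYcard, hYfree⟩ :=
          free_hull hsmall hc0 (hlimit c hcκ) X subset_union_left hXB hXcard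
        obtain ⟨Q, hQ⟩ := hsmall Y (subset_union_left.trans hXY) hYB (hYcard.trans_lt hcκ)
        exact ⟨Y, Q, fun _ => ⟨⟨subset_union_left.trans hXY, hYB, hYcard, hYfree, hQ⟩,
          subset_union_right.trans hXY⟩⟩
      · exact ⟨∅, fun _ => ∅, fun h => absurd h hcK⟩
    choose W' P' hWP using hc
    exact ⟨(W', P'), fun c hc => (hWP c hc).1, fun c hc => (hWP c hc).2⟩
  obtain ⟨s0, hs0, hs0cov⟩ := hinit
  let St := {s : (Cardinal.{u} → Set V) × (Cardinal.{u} → V → Set V) // Inv s}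
  have hstep' : ∀ s : St, ∃ s' : St, Step s.1 s'.1 := by
    rintro ⟨s, hs⟩
    obtain ⟨s', h1, h2⟩ := hstep s hs
    exact ⟨⟨s', h1⟩, h2⟩
  choose nxt hnxt using hstep'
  let S : ℕ → St := fun n => Nat.rec ⟨s0, hs0⟩ (fun _ => nxt) n
  have hS : ∀ n, Step (S n).1 (S (n + 1)).1 := fun n => hnxt (S n)
  let W : ℕ → Cardinal.{u} → Set V := fun n => (S n).1.1
  let P : ℕ → Cardinal.{u} → V → Set V := fun n => (S n).1.2
  have hWmono : ∀ c ∈ K, ∀ n, W n c ⊆ W (n + 1) c := fun c hc n => (hS n c hc).1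
  have hWm : ∀ c ∈ K, Monotone fun n => W n c := fun c hc => monotone_nat_of_le_succ (hWmono c hc)
  have hU := fun c (hc : c ∈ K) => wit_iUnion (G := G) (m := m) (A := A) (fun n => W n c)
    (fun n => P n c) (hWmono c hc) (fun n x hx => (hS n c hc).2.1 x hx)
    (fun n => ((S n).2 c hc).2.2.2.2)
  let Wi : Cardinal.{u} → Set V := fun c => ⋃ n, W n c
  let Pi : Cardinal.{u} → V → Set V := fun c x => ⋃ k, {y | x ∈ W k c ∧ y ∈ P k c x}
  have hWiB : ∀ c ∈ K, Wi c ⊆ B := fun c hc => iUnion_subset fun n => ((S n).2 c hc).2.1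
  have hAWi : ∀ c ∈ K, A ⊆ Wi c := fun c hc =>
    ((S 0).2 c hc).1.trans (subset_iUnion (fun n => W n c) 0)
  have hWimono : ∀ c ∈ K, ∀ d ∈ K, d < c → Wi d ⊆ Wi c := by
    intro c hc d hd hdc x hx
    obtain ⟨n, hn⟩ := mem_iUnion.mp hx
    exact mem_iUnion.mpr ⟨n + 1, (hS n c hc).2.2.1 d hd hdc hn⟩
  have hWimono' : ∀ c ∈ K, ∀ d ∈ K, d ≤ c → Wi d ⊆ Wi c := by
    intro c hc d hd hdc
    rcases hdc.eq_or_lt with h | h
    · rw [h]
    · exact hWimono c hc d hd h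
  have hclosed : ∀ c ∈ K, ∀ d ∈ K, d < c → ∀ x ∈ Wi d \ A, Pi c x ⊆ Wi d := by
    rintro c hc d hd hdc x ⟨hx, hxA⟩
    obtain ⟨n, hn⟩ := mem_iUnion.mp hx
    obtain ⟨k, hk⟩ := mem_iUnion.mp (hWimono c hc d hd hdc hx)
    have h1 : x ∈ W (max n k) d := hWm d hd (le_max_left n k) hn
    have h2 : x ∈ W (max n k) c := hWm c hc (le_max_right n k) hk
    have h3 : Pi c x = P (max n k) c x := (hU c hc).1 _ x h2
    rw [h3]
    exact ((hS (max n k) d hd).2.2.2 c hc x ⟨⟨h1, h2⟩, hxA⟩).trans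
      (subset_iUnion (fun n => W n d) (max n k + 1))
  have hKne : K.Nonempty := by
    obtain ⟨t, _⟩ := hlamcof 0 (lt_of_lt_of_le aleph0_pos hκ)
    exact ⟨lam t, t, rfl⟩
  have hcover : ∀ x ∈ B, ∃ c ∈ K, x ∈ Wi c := by
    intro x hx
    by_cases hxA : x ∈ A
    · obtain ⟨c, hc⟩ := hKne
      exact ⟨c, hc, hAWi c hc hxA⟩
    · have h1 : (idx x).card < κ := lt_ord.mp (hidx1 x ⟨hx, hxA⟩)
      obtain ⟨t, ht⟩ := hlamcof _ (hlimit _ h1)
      refine ⟨lam t, ⟨t, rfl⟩, mem_iUnion.mpr ⟨0, hs0cov (lam t) ⟨t, rfl⟩ ⟨⟨hx, hxA⟩, ?_⟩⟩⟩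
      rw [lt_ord]
      exact lt_of_lt_of_le (Order.lt_succ _) ht
  let g : V → Cardinal.{u} := fun x => sInf {c | c ∈ K ∧ x ∈ Wi c}
  have hgmem : ∀ x ∈ B, g x ∈ K ∧ x ∈ Wi (g x) := by
    intro x hx
    obtain ⟨c, hc, hxc⟩ := hcover x hx
    exact csInf_mem (s := {c | c ∈ K ∧ x ∈ Wi c}) ⟨c, hc, hxc⟩
  have hgle : ∀ x, ∀ c ∈ K, x ∈ Wi c → g x ≤ c := fun x c hc hx => csInf_le' ⟨hc, hx⟩
  refine good_concat g ?_
  intro x hx
  obtain ⟨hcK, hxW⟩ := hgmem x hx.1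
  have e2 : A ∪ {y | y ∈ B ∧ g y ≤ g x} = Wi (g x) := by
    ext y
    constructor
    · rintro (hy | ⟨hyB, hy⟩)
      · exact hAWi _ hcK hy
      · obtain ⟨h1, h2⟩ := hgmem y hyB
        exact hWimono' _ hcK _ h1 hy h2
    · intro hy
      exact Or.inr ⟨hWiB _ hcK hy, hgle y _ hcK hy⟩
  rw [e2]
  refine (hU (g x) hcK).2.good_of_closed subset_union_left ?_ ?_
  · rintro y (hy | ⟨hyB, hy⟩)
    · exact hAWi _ hcK hy
    · obtain ⟨h1, h2⟩ := hgmem y hyB
      exact hWimono _ hcK _ h1 hy h2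
  · rintro y ⟨hy | ⟨hyB, hy⟩, hyA⟩ z hz
    · exact absurd hy hyA
    · obtain ⟨h1, h2⟩ := hgmem y hyB
      have h3 : z ∈ Wi (g y) := hclosed (g x) hcK (g y) h1 hy y ⟨h2, hyA⟩ hz
      exact Or.inr ⟨hWiB _ h1 h3, (hgle z _ h1 h3).trans_lt hy⟩

end Pool.Agent.Work.MP_279ba3_co
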